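import Pool.Agent.K6.H28.K1.KF

set_option autoImplicit false

/-! # The family generated by the elementary matrices and a given family -/

namespace Pool.Agent.K6.H28.K1

open Matrix

/-- a family of invertible matrices (of trivial matrices) -/
structure Tr (S : Type) [Ring S] where
  mem : ∀ {ι : Type} [Fintype ι] [DecidableEq ι], Matrix ι ι S → Prop
  inv : ∀ {ι : Type} [Fintype ι] [DecidableEq ι] {A : Matrix ι ι S}, mem A →
    ∃ B, A * B = 1 ∧ B * A = 1 ∧ mem B
  reindex : ∀ {ι κ : Type} [Fintype ι] [DecidableEq ι] [Fintype κ] [DecidableEq κ]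
    {A : Matrix ι ι S} (e : κ ≃ ι), mem A → mem (A.submatrix e e)
  stab : ∀ {ι : Type} (κ : Type) [Fintype ι] [DecidableEq ι] [Fintype κ] [DecidableEq κ]
    {A : Matrix ι ι S}, mem A → mem (fromBlocks A 0 0 (1 : Matrix κ κ S))

/-- elementary matrices (transvections) -/
def IsElem {S ι : Type} [Ring S] [DecidableEq ι] (A : Matrix ι ι S) : Prop :=
  ∃ i j, i ≠ j ∧ ∃ c : S, A = 1 + Matrix.single i j c

variable {S : Type} [Ring S] (T : Tr S)

/-- the generators -/
def gen (ι : Type) [Fintype ι] [DecidableEq ι] : Set (Matrix ι ι S) := {A | IsElem A ∨ T.mem A}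

/-- products of generators -/
abbrev cl (ι : Type) [Fintype ι] [DecidableEq ι] : Submonoid (Matrix ι ι S) :=
  Submonoid.closure (gen T ι)

variable {T} {ι κ : Type} [Fintype ι] [DecidableEq ι] [Fintype κ] [DecidableEq κ]

theorem IsElem.inv {A : Matrix ι ι S} (h : IsElem A) : ∃ B, A * B = 1 ∧ B * A = 1 ∧ IsElem B := by
  obtain ⟨i, j, hij, c, rfl⟩ := h
  refine ⟨1 + Matrix.single i j (-c), ?_, ?_, i, j, hij, -c, rfl⟩
  · rw [Matrix.mul_add, Matrix.mul_one, Matrix.add_mul, Matrix.one_mul,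
      Matrix.single_mul_single_of_ne _ _ _ _ hij.symm, add_zero, add_assoc, ← Matrix.single_add,
      add_neg_cancel, Matrix.single_zero, add_zero]
  · rw [Matrix.mul_add, Matrix.mul_one, Matrix.add_mul, Matrix.one_mul,
      Matrix.single_mul_single_of_ne _ _ _ _ hij.symm, add_zero, add_assoc, ← Matrix.single_add,
      neg_add_cancel, Matrix.single_zero, add_zero]

theorem IsElem.reindex {A : Matrix ι ι S} (e : κ ≃ ι) (h : IsElem A) :
    IsElem (A.submatrix e e) := by
  obtain ⟨i, j, hij, c, rfl⟩ := h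
  refine ⟨e.symm i, e.symm j, fun h => hij (e.symm.injective h), c, ?_⟩
  ext x y
  simp [Matrix.single_apply, Matrix.one_apply, Equiv.symm_apply_eq]

theorem IsElem.stab {A : Matrix ι ι S} (h : IsElem A) :
    IsElem (fromBlocks A 0 0 (1 : Matrix κ κ S)) := by
  obtain ⟨i, j, hij, c, rfl⟩ := h
  refine ⟨Sum.inl i, Sum.inl j, fun h => hij (Sum.inl_injective h), c, ?_⟩
  ext x y
  rcases x with x | x <;> rcases y with y | y <;> simp [Matrix.single_apply, Matrix.one_apply]

theorem gen_inv {A : Matrix ι ι S} (h : A ∈ gen T ι) : ∃ B, A * B = 1 ∧ B * A = 1 ∧ B ∈ gen T ι := by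
  rcases h with h | h
  · obtain ⟨B, h1, h2, h3⟩ := h.inv
    exact ⟨B, h1, h2, Or.inl h3⟩
  · obtain ⟨B, h1, h2, h3⟩ := T.inv h
    exact ⟨B, h1, h2, Or.inr h3⟩

theorem cl_inv {A : Matrix ι ι S} (h : A ∈ cl T ι) : ∃ B, A * B = 1 ∧ B * A = 1 ∧ B ∈ cl T ι := by
  induction h using Submonoid.closure_induction with
  | mem A h =>
    obtain ⟨B, h1, h2, h3⟩ := gen_inv h
    exact ⟨B, h1, h2, Submonoid.subset_closure h3⟩
  | one => exact ⟨1, Matrix.mul_one _, Matrix.mul_one _, Submonoid.one_mem _⟩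
  | mul A B _ _ hA hB =>
    obtain ⟨A', a1, a2, a3⟩ := hA
    obtain ⟨B', b1, b2, b3⟩ := hB
    refine ⟨B' * A', ?_, ?_, Submonoid.mul_mem _ b3 a3⟩
    · rw [Matrix.mul_assoc, ← Matrix.mul_assoc B, b1, Matrix.one_mul, a1]
    · rw [Matrix.mul_assoc, ← Matrix.mul_assoc A', a2, Matrix.one_mul, b2]

theorem cl_reindex (e : κ ≃ ι) {A : Matrix ι ι S} (h : A ∈ cl T ι) : A.submatrix e e ∈ cl T κ := by
  induction h using Submonoid.closure_induction with
  | mem A h =>
    apply Submonoid.subset_closure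
    rcases h with h | h
    · exact Or.inl (h.reindex e)
    · exact Or.inr (T.reindex e h)
  | one => rw [Matrix.submatrix_one_equiv]; exact Submonoid.one_mem _
  | mul A B _ _ hA hB =>
    rw [← Matrix.submatrix_mul_equiv A B e e e]
    exact Submonoid.mul_mem _ hA hB

theorem cl_stab {A : Matrix ι ι S} (h : A ∈ cl T ι) :
    fromBlocks A 0 0 (1 : Matrix κ κ S) ∈ cl T (ι ⊕ κ) := by
  induction h using Submonoid.closure_induction with
  | mem A h =>
    apply Submonoid.subset_closure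
    rcases h with h | h
    · exact Or.inl h.stab
    · exact Or.inr (T.stab κ h)
  | one => rw [fromBlocks_one]; exact Submonoid.one_mem _
  | mul A B _ _ hA hB =>
    have := Submonoid.mul_mem _ hA hB
    rw [fromBlocks_multiply] at this
    simpa using this

/-- stably products of generators -/
def Tv (T : Tr S) {ι : Type} [Fintype ι] [DecidableEq ι] (A : Matrix ι ι S) : Prop :=
  ∃ (ρ : Type) (_ : Fintype ρ) (_ : DecidableEq ρ),
    fromBlocks A 0 0 (1 : Matrix ρ ρ S) ∈ cl T (ι ⊕ ρ)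

/-- the family generated by the elementary matrices and `T` -/
def KT (T : Tr S) : KF S where
  mem := Tv T
  mul := by
    rintro ι _ _ A B ⟨ρ, _, _, hA⟩ ⟨ρ', _, _, hB⟩
    refine ⟨ρ ⊕ ρ', inferInstance, inferInstance, ?_⟩
    have hA' := cl_reindex (Equiv.sumAssoc ι ρ ρ').symm (cl_stab (κ := ρ') hA)
    have hB' := cl_reindex (((Equiv.refl ι).sumCongr (Equiv.sumComm ρ ρ')).trans
      (Equiv.sumAssoc ι ρ' ρ).symm) (cl_stab (κ := ρ) hB)
    have h := Submonoid.mul_mem _ hA' hB'
    convert h using 1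
    have e1 : (fromBlocks (fromBlocks A 0 0 (1 : Matrix ρ ρ S)) 0 0
        (1 : Matrix ρ' ρ' S)).submatrix (Equiv.sumAssoc ι ρ ρ').symm (Equiv.sumAssoc ι ρ ρ').symm
        = fromBlocks A 0 0 (1 : Matrix (ρ ⊕ ρ') (ρ ⊕ ρ') S) := by
      ext x y
      rcases x with x | x | x <;> rcases y with y | y | y <;> simp [Matrix.one_apply]
    have e2 : (fromBlocks (fromBlocks B 0 0 (1 : Matrix ρ' ρ' S)) 0 0
        (1 : Matrix ρ ρ S)).submatrix (((Equiv.refl ι).sumCongr (Equiv.sumComm ρ ρ')).trans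
          (Equiv.sumAssoc ι ρ' ρ).symm) (((Equiv.refl ι).sumCongr (Equiv.sumComm ρ ρ')).trans
          (Equiv.sumAssoc ι ρ' ρ).symm)
        = fromBlocks B 0 0 (1 : Matrix (ρ ⊕ ρ') (ρ ⊕ ρ') S) := by
      ext x y
      rcases x with x | x | x <;> rcases y with y | y | y <;> simp [Matrix.one_apply]
    rw [e1, e2, fromBlocks_multiply]
    simp
  inv := by
    rintro ι _ _ A ⟨ρ, _, _, hA⟩
    obtain ⟨B, h1, h2, h3⟩ := cl_inv hA
    rw [← Matrix.fromBlocks_toBlocks B, fromBlocks_multiply, ← fromBlocks_one,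
      fromBlocks_inj] at h1 h2
    obtain ⟨a1, a2, a3, a4⟩ := h1
    obtain ⟨b1, b2, b3, b4⟩ := h2
    simp only [Matrix.zero_mul, Matrix.mul_zero, add_zero, zero_add, Matrix.one_mul,
      Matrix.mul_one] at a1 a2 a3 a4 b1 b2 b3 b4
    refine ⟨B.toBlocks₁₁, a1, b1, ρ, inferInstance, inferInstance, ?_⟩
    convert h3 using 1
    conv_rhs => rw [← Matrix.fromBlocks_toBlocks B]
    rw [a3, a4, b2]
  reindex := by
    rintro ι κ _ _ _ _ A e ⟨ρ, _, _, hA⟩
    refine ⟨ρ, inferInstance, inferInstance, ?_⟩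
    have h := cl_reindex (e.sumCongr (Equiv.refl ρ)) hA
    convert h using 1
    ext x y
    rcases x with x | x <;> rcases y with y | y <;> simp
  stab := by
    rintro ι κ _ _ _ _ A ⟨ρ, _, _, hA⟩
    refine ⟨ρ, inferInstance, inferInstance, ?_⟩
    have h := cl_reindex ((Equiv.sumAssoc ι κ ρ).trans (((Equiv.refl ι).sumCongr
      (Equiv.sumComm κ ρ)).trans (Equiv.sumAssoc ι ρ κ).symm)) (cl_stab (κ := κ) hA)
    convert h using 1
    ext x y
    rcases x with (x | x) | x <;> rcases y with (y | y) | y <;> simp [Matrix.one_apply]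
  unstab := by
    rintro ι κ _ _ _ _ A ⟨ρ, _, _, hA⟩
    refine ⟨κ ⊕ ρ, inferInstance, inferInstance, ?_⟩
    have h := cl_reindex (Equiv.sumAssoc ι κ ρ).symm hA
    convert h using 1
    ext x y
    rcases x with x | x | x <;> rcases y with y | y | y <;> simp [Matrix.one_apply]
  one := by
    intro ι _ _
    refine ⟨Empty, inferInstance, inferInstance, ?_⟩
    rw [fromBlocks_one]
    exact Submonoid.one_mem _
  tv := by
    intro ι _ _ i j hij c
    refine ⟨Empty, inferInstance, inferInstance, Submonoid.subset_closure (Or.inl ?_)⟩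
    apply IsElem.stab
    exact ⟨i, j, hij, c, rfl⟩

theorem KT_of_triv {A : Matrix ι ι S} (h : T.mem A) : (KT T).mem A :=
  ⟨Empty, inferInstance, inferInstance, Submonoid.subset_closure (Or.inr (T.stab Empty h))⟩

theorem IsElem.map {R : Type} [Ring R] (φ : R →+* S) {A : Matrix ι ι R} (h : IsElem A) :
    IsElem (A.map φ) := by
  obtain ⟨i, j, hij, c, rfl⟩ := h
  refine ⟨i, j, hij, φ c, ?_⟩
  rw [Matrix.map_add φ (map_add φ), Matrix.map_one φ (map_zero φ) (map_one φ)]
  congr 1
  ext x y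
  simp only [Matrix.map_apply, Matrix.single_apply]
  split_ifs <;> simp

theorem cl_map {R : Type} [Ring R] {T' : Tr R} (φ : R →+* S)
    (hφ : ∀ {ι : Type} [Fintype ι] [DecidableEq ι] {A : Matrix ι ι R}, T'.mem A → T.mem (A.map φ))
    {A : Matrix ι ι R} (h : A ∈ cl T' ι) : A.map φ ∈ cl T ι := by
  induction h using Submonoid.closure_induction with
  | mem A h =>
    apply Submonoid.subset_closure
    rcases h with h | h
    · exact Or.inl (h.map φ)
    · exact Or.inr (hφ h)
  | one => rw [Matrix.map_one φ (map_zero φ) (map_one φ)]; exact Submonoid.one_mem _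
  | mul A B _ _ hA hB =>
    rw [Matrix.map_mul]
    exact Submonoid.mul_mem _ hA hB

theorem KT_map {R : Type} [Ring R] {T' : Tr R} (φ : R →+* S)
    (hφ : ∀ {ι : Type} [Fintype ι] [DecidableEq ι] {A : Matrix ι ι R}, T'.mem A → T.mem (A.map φ))
    {A : Matrix ι ι R} (h : (KT T').mem A) : (KT T).mem (A.map φ) := by
  obtain ⟨ρ, _, _, h⟩ := h
  refine ⟨ρ, inferInstance, inferInstance, ?_⟩
  have := cl_map φ hφ h
  rw [fromBlocks_map, Matrix.map_one φ (map_zero φ) (map_one φ)] at this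
  convert this using 1
  congr 1 <;> (ext; simp)

end Pool.Agent.K6.H28.K1
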