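import Pool.Agent.K6.H28.GR.Seq

set_option autoImplicit false
set_option linter.unusedSectionVars false

/-! # Gradings by the integers -/

namespace Pool.Agent.K6.H28.K1

open Matrix Pool.Agent.K6.H28.GR

/-- the projections of a ring graded by the integers -/
structure Gd (S : Type) [Ring S] where
  hp : ℤ → S →+ S
  hp_hp : ∀ i j x, hp i (hp j x) = if i = j then hp j x else 0
  left : ∀ i a x y, hp i (hp a x * y) = hp a x * hp (i - a) y
  right : ∀ i b x y, hp i (x * hp b y) = hp (i - b) x * hp b y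
  fin : ∀ x, ∃ n : ℕ, ∀ i : ℤ, n < i.natAbs → hp i x = 0
  ext : ∀ x y, (∀ i, hp i x = hp i y) → x = y
  one : hp 0 1 = 1

namespace Gd

variable {S : Type} [Ring S] (D : Gd S) {ι κ μ : Type}

/-- the homogeneous parts of a matrix -/
def pt (i : ℤ) (A : Matrix ι κ S) : Matrix ι κ S := A.map (D.hp i)

/-- homogeneous matrices -/
def Hm (a : ℤ) (A : Matrix ι κ S) : Prop := D.pt a A = A

theorem hm_pt (i : ℤ) (A : Matrix ι κ S) : D.Hm i (D.pt i A) := by
  ext x y
  change D.hp i (D.hp i (A x y)) = D.hp i (A x y)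
  rw [D.hp_hp, if_pos rfl]

theorem pt_hm {a : ℤ} {A : Matrix ι κ S} (h : D.Hm a A) (i : ℤ) :
    D.pt i A = if i = a then A else 0 := by
  ext x y
  have h1 : D.hp a (A x y) = A x y := congrFun (congrFun h x) y
  change D.hp i (A x y) = _
  rw [← h1, D.hp_hp]
  split_ifs with h2
  · exact h1
  · rfl

theorem pt_add (i : ℤ) (A B : Matrix ι κ S) : D.pt i (A + B) = D.pt i A + D.pt i B := by
  ext x y
  exact map_add (D.hp i) _ _

theorem pt_sub (i : ℤ) (A B : Matrix ι κ S) : D.pt i (A - B) = D.pt i A - D.pt i B := by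
  ext x y
  exact map_sub (D.hp i) _ _

theorem pt_neg (i : ℤ) (A : Matrix ι κ S) : D.pt i (-A) = -D.pt i A := by
  ext x y
  exact map_neg (D.hp i) _

theorem hm_zero (a : ℤ) : D.Hm a (0 : Matrix ι κ S) := by
  ext x y
  exact map_zero (D.hp a)

theorem hm_add {a : ℤ} {A B : Matrix ι κ S} (hA : D.Hm a A) (hB : D.Hm a B) : D.Hm a (A + B) := by
  rw [Hm, pt_add, hA, hB]

theorem hm_sub {a : ℤ} {A B : Matrix ι κ S} (hA : D.Hm a A) (hB : D.Hm a B) : D.Hm a (A - B) := by
  rw [Hm, pt_sub, hA, hB]

theorem hm_neg {a : ℤ} {A : Matrix ι κ S} (hA : D.Hm a A) : D.Hm a (-A) := by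
  rw [Hm, pt_neg, hA]

theorem hm_one [DecidableEq ι] : D.Hm 0 (1 : Matrix ι ι S) := by
  ext x y
  change D.hp 0 ((1 : Matrix ι ι S) x y) = _
  rw [Matrix.one_apply]
  split_ifs
  · exact D.one
  · exact map_zero _

variable [Fintype κ]

theorem pt_mul_left {a : ℤ} {A : Matrix ι κ S} (h : D.Hm a A) (i : ℤ) (B : Matrix κ μ S) :
    D.pt i (A * B) = A * D.pt (i - a) B := by
  ext x y
  change D.hp i ((A * B) x y) = _
  rw [Matrix.mul_apply, Matrix.mul_apply, map_sum]
  apply Finset.sum_congr rfl
  intro k _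
  have h1 : D.hp a (A x k) = A x k := congrFun (congrFun h x) k
  rw [← h1, D.left]
  rfl

theorem pt_mul_right {b : ℤ} {B : Matrix κ μ S} (h : D.Hm b B) (i : ℤ) (A : Matrix ι κ S) :
    D.pt i (A * B) = D.pt (i - b) A * B := by
  ext x y
  change D.hp i ((A * B) x y) = _
  rw [Matrix.mul_apply, Matrix.mul_apply, map_sum]
  apply Finset.sum_congr rfl
  intro k _
  have h1 : D.hp b (B k y) = B k y := congrFun (congrFun h k) y
  rw [← h1, D.right]
  rfl

theorem hm_mul {a b : ℤ} {A : Matrix ι κ S} {B : Matrix κ μ S} (hA : D.Hm a A) (hB : D.Hm b B) :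
    D.Hm (a + b) (A * B) := by
  rw [Hm, D.pt_mul_left hA, add_sub_cancel_left, hB]

theorem ext_pt {A B : Matrix ι μ S} (h : ∀ i, D.pt i A = D.pt i B) : A = B := by
  ext x y
  apply D.ext
  intro i
  exact congrFun (congrFun (h i) x) y

theorem fin_pt [Finite ι] [Finite μ] (A : Matrix ι μ S) :
    ∃ n : ℕ, ∀ i : ℤ, n < i.natAbs → D.pt i A = 0 := by
  have := Fintype.ofFinite ι
  have := Fintype.ofFinite μ
  choose n hn using fun (x : ι) (y : μ) => D.fin (A x y)
  refine ⟨Finset.univ.sup fun x => Finset.univ.sup fun y => n x y, fun i hi => ?_⟩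
  ext x y
  apply hn
  refine lt_of_le_of_lt ?_ hi
  exact (Finset.le_sup (f := fun y => n x y) (Finset.mem_univ y)).trans
    (Finset.le_sup (f := fun x => Finset.univ.sup fun y => n x y) (Finset.mem_univ x))

theorem hm_congr {a b : ℤ} (h : a = b) {A : Matrix ι μ S} (hA : D.Hm a A) : D.Hm b A := h ▸ hA

end Gd

section group

variable {Λ : Type} [Ring Λ] {G : Type} [Group G] {d : G →* Multiplicative ℤ} {t : G}

variable (Λ d t) in
/-- the homogeneous components -/
noncomputable def hpg (i : ℤ) : MonoidAlgebra Λ G →+ MonoidAlgebra Λ G :=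
  ((AddMonoidHom.mulLeft (MonoidAlgebra.single (t ^ i) (1 : Λ))).comp
    (incl d : MonoidAlgebra Λ d.ker →+* MonoidAlgebra Λ G).toAddMonoidHom).comp (cmp d t i)

theorem hpg_coeff (ht : dg d t = 1) (i : ℤ) (x : MonoidAlgebra Λ G) (g : G) :
    (hpg Λ d t i x).coeff g = if dg d g = i then x.coeff g else 0 := by
  change (MonoidAlgebra.single (t ^ i) (1 : Λ) * incl d (cmp d t i x)).coeff g = _
  rw [MonoidAlgebra.coeff_single_mul_apply, one_mul]
  split_ifs with h
  · have hk : (t ^ i)⁻¹ * g ∈ d.ker := by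
      rw [mem_ker_iff, dg_mul, dg_inv, dg_zpow, ht, h]; ring
    have h1 := incl_coeff d (cmp d t i x) ⟨_, hk⟩
    rw [cmp_coeff] at h1
    change (incl d (cmp d t i x)).coeff ((t ^ i)⁻¹ * g) = _ at h1
    rw [h1]
    change x.coeff (t ^ i * ((t ^ i)⁻¹ * g)) = _
    rw [mul_inv_cancel_left]
  · rw [incl_coeff_not]
    rw [mem_ker_iff, dg_mul, dg_inv, dg_zpow, ht]
    intro h1
    apply h
    linarith

theorem hpg_single (ht : dg d t = 1) (i : ℤ) (g : G) (z : Λ) :
    hpg Λ d t i (MonoidAlgebra.single g z) = if dg d g = i then MonoidAlgebra.single g z else 0 := by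
  classical
  ext g'
  rw [hpg_coeff ht]
  by_cases hg : g = g'
  · subst hg
    split_ifs <;> rfl
  · have h0 : (MonoidAlgebra.single g z : MonoidAlgebra Λ G).coeff g' = 0 := by
      rw [MonoidAlgebra.coeff_single]
      exact Finsupp.single_eq_of_ne (Ne.symm hg)
    by_cases h1 : dg d g' = i <;> by_cases h2 : dg d g = i
    · rw [if_pos h1, if_pos h2]
    · rw [if_pos h1, if_neg h2]; exact h0
    · rw [if_neg h1, if_pos h2]; exact h0.symm
    · rw [if_neg h1, if_neg h2]; rfl

/-- the grading of a group ring -/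
noncomputable def gdg (ht : dg d t = 1) : Gd (MonoidAlgebra Λ G) where
  hp := hpg Λ d t
  hp_hp := by
    intro i j x
    ext g
    rw [hpg_coeff ht, hpg_coeff ht]
    by_cases hij : i = j
    · subst hij
      rw [if_pos rfl, hpg_coeff ht]
      split_ifs <;> rfl
    · rw [if_neg hij]
      change _ = (0 : Λ)
      split_ifs with h1 h2
      · exact absurd (h1.symm.trans h2) hij
      · rfl
      · rfl
  left := by
    intro i a x y
    induction x using MonoidAlgebra.induction_linear with
    | zero => simp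
    | add x1 x2 h1 h2 => rw [map_add, add_mul, map_add, h1, h2, add_mul]
    | single g z =>
      rw [hpg_single ht]
      split_ifs with hg
      · induction y using MonoidAlgebra.induction_linear with
        | zero => simp
        | add y1 y2 h1 h2 => rw [mul_add, map_add, h1, h2, map_add, mul_add]
        | single h w =>
          rw [MonoidAlgebra.single_mul_single, hpg_single ht, hpg_single ht, dg_mul, hg]
          by_cases hh : dg d h = i - a
          · rw [if_pos (by omega), if_pos hh, MonoidAlgebra.single_mul_single]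
          · rw [if_neg (by omega), if_neg hh, mul_zero]
      · rw [zero_mul, map_zero, zero_mul]
  right := by
    intro i b x y
    induction y using MonoidAlgebra.induction_linear with
    | zero => simp
    | add y1 y2 h1 h2 => rw [map_add, mul_add, map_add, h1, h2, mul_add]
    | single g z =>
      rw [hpg_single ht]
      split_ifs with hg
      · induction x using MonoidAlgebra.induction_linear with
        | zero => simp
        | add x1 x2 h1 h2 => rw [add_mul, map_add, h1, h2, map_add, add_mul]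
        | single h w =>
          rw [MonoidAlgebra.single_mul_single, hpg_single ht, hpg_single ht, dg_mul, hg]
          by_cases hh : dg d h = i - b
          · rw [if_pos (by omega), if_pos hh, MonoidAlgebra.single_mul_single]
          · rw [if_neg (by omega), if_neg hh, zero_mul]
      · rw [mul_zero, map_zero, mul_zero]
  fin := by
    intro x
    obtain ⟨I, hI⟩ := cmp_finite (t := t) ht x
    refine ⟨I.sup fun i => i.natAbs, fun i hi => ?_⟩
    have h1 : i ∉ I := fun h => absurd (Finset.le_sup (f := fun i : ℤ => i.natAbs) h) (not_le.2 hi)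
    change MonoidAlgebra.single (t ^ i) (1 : Λ) * incl d (cmp d t i x) = 0
    rw [hI i h1, map_zero, mul_zero]
  ext := by
    intro x y h
    ext g
    have h1 := congrArg (fun z : MonoidAlgebra Λ G => z.coeff g) (h (dg d g))
    simp only [hpg_coeff ht, if_true] at h1
    exact h1
  one := by
    have : (1 : MonoidAlgebra Λ G) = MonoidAlgebra.single 1 1 := rfl
    rw [this, hpg_single ht, if_pos (dg_one d)]

/-- matrices of degree zero come from the kernel -/
theorem exists_incl (ht : dg d t = 1) {ι κ : Type} {A : Matrix ι κ (MonoidAlgebra Λ G)}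
    (h : (gdg ht).Hm 0 A) : ∃ A' : Matrix ι κ (MonoidAlgebra Λ d.ker), A = A'.map (incl d) := by
  refine ⟨A.map (cmp d t 0), ?_⟩
  ext1 x y
  have h1 : hpg Λ d t 0 (A x y) = A x y := congrFun (congrFun h x) y
  change A x y = incl d (cmp d t 0 (A x y))
  have h2 : hpg Λ d t 0 (A x y) = MonoidAlgebra.single (t ^ (0 : ℤ)) (1 : Λ) *
    incl d (cmp d t 0 (A x y)) := rfl
  rw [zpow_zero] at h2
  have h3 : (MonoidAlgebra.single (1 : G) (1 : Λ)) = 1 := rfl
  rw [h3, one_mul] at h2
  rw [← h2, h1]

theorem hm_incl (ht : dg d t = 1) {ι κ : Type} (A : Matrix ι κ (MonoidAlgebra Λ d.ker)) :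
    (gdg ht).Hm 0 (A.map (incl d)) := by
  ext1 x y
  change MonoidAlgebra.single (t ^ (0 : ℤ)) (1 : Λ) * incl d (cmp d t 0 (incl d (A x y))) = incl d (A x y)
  rw [cmp_incl ht, if_pos rfl, zpow_zero]
  exact one_mul _

theorem hm_diag (ht : dg d t = 1) {ι : Type} [DecidableEq ι] (a : ℤ) (g : ι → G)
    (hg : ∀ i, dg d (g i) = a) :
    (gdg ht).Hm a (Matrix.diagonal fun i => MonoidAlgebra.single (g i) (1 : Λ)) := by
  ext1 x y
  change hpg Λ d t a _ = _
  by_cases hxy : x = y
  · subst hxy
    rw [Matrix.diagonal_apply_eq, hpg_single ht, if_pos (hg x)]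
  · rw [Matrix.diagonal_apply_ne _ hxy, map_zero]

theorem incl_inj {A B : MonoidAlgebra Λ d.ker} (h : incl d A = incl d B) : A = B := by
  ext k
  rw [← incl_coeff d A k, ← incl_coeff d B k, h]

end group

end Pool.Agent.K6.H28.K1
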