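import Pool.Agent.K6.H28.K1.KF
import Pool.Agent.K6.H28.K1.Gd

set_option autoImplicit false
set_option linter.unusedSectionVars false

/-! # Invertible matrices over graded rings: linearisation and decomposition of linear matrices -/

namespace Pool.Agent.K6.H28.K1

open Matrix

variable {S : Type} [Ring S]

theorem KF.isUnit (F : KF S) {ι : Type} [Fintype ι] [DecidableEq ι] {A : Matrix ι ι S}
    (h : F.mem A) : IsUnit A := by
  obtain ⟨B, h1, h2, -⟩ := F.inv h
  exact ⟨⟨A, B, h1, h2⟩, rfl⟩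

theorem exists_inv {ι : Type} [Fintype ι] [DecidableEq ι] {A : Matrix ι ι S} (h : IsUnit A) :
    ∃ B, A * B = 1 ∧ B * A = 1 := by
  obtain ⟨u, rfl⟩ := h
  exact ⟨u⁻¹.1, u.mul_inv, u.inv_mul⟩

theorem isUnit_of_inv {ι : Type} [Fintype ι] [DecidableEq ι] {A B : Matrix ι ι S} (h : A * B = 1)
    (h' : B * A = 1) : IsUnit A := ⟨⟨A, B, h, h'⟩, rfl⟩

theorem isUnit_stab {ι κ : Type} [Fintype ι] [DecidableEq ι] [Fintype κ] [DecidableEq κ]
    {A : Matrix ι ι S} (h : IsUnit A) : IsUnit (fromBlocks A 0 0 (1 : Matrix κ κ S)) := by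
  obtain ⟨B, h1, h2⟩ := exists_inv h
  apply isUnit_of_inv (B := fromBlocks B 0 0 1)
  · rw [fromBlocks_multiply]; simp [h1]
  · rw [fromBlocks_multiply]; simp [h2]

theorem nil_seq {ι : Type} [Fintype ι] [DecidableEq ι] (N : Matrix ι ι S) (y : ℤ → Matrix ι ι S)
    (hy : ∀ k, y k + N * y (k - 1) = if k = 0 then 1 else 0) (n : ℕ)
    (hn : ∀ k : ℤ, n < k.natAbs → y k = 0) : ∃ r, N ^ r = 0 := by
  have h1 : ∀ (m : ℕ) (k : ℤ), k < 0 → y k = (-N) ^ m * y (k - m) := by
    intro m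
    induction m with
    | zero => intro k _; simp
    | succ m ih =>
      intro k hk
      rw [ih k hk, pow_succ, Matrix.mul_assoc]
      congr 1
      have h2 := hy (k - m)
      rw [if_neg (by omega)] at h2
      rw [eq_neg_of_add_eq_zero_left h2, Matrix.neg_mul, Nat.cast_succ, sub_sub]
  have h2 : ∀ k < 0, y k = 0 := by
    intro k hk
    rw [h1 (n + 1) k hk, hn (k - (n + 1 : ℕ)) (by omega), Matrix.mul_zero]
  have h3 : y 0 = 1 := by
    have := hy 0
    rwa [h2 (0 - 1) (by omega), Matrix.mul_zero, add_zero, if_pos rfl] at this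
  have h4 : ∀ k : ℕ, y k = (-N) ^ k := by
    intro k
    induction k with
    | zero => rw [pow_zero]; exact h3
    | succ k ih =>
      have h5 := hy ((k + 1 : ℕ) : ℤ)
      rw [if_neg (by omega)] at h5
      rw [eq_neg_of_add_eq_zero_left h5, pow_succ', Matrix.neg_mul]
      have h6 : ((k + 1 : ℕ) : ℤ) - 1 = k := by omega
      rw [h6, ih]
  have h5 : (-N) ^ (n + 1) = 0 := by rw [← h4]; exact hn _ (by omega)
  exact isNilpotent_neg_iff.1 ⟨n + 1, h5⟩

section fit

variable (F : KF S) (D : Gd S)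

/-- the hypothesis on unipotent matrices -/
def NilH : Prop := ∀ (ι : Type) [Fintype ι] [DecidableEq ι] (N : Matrix ι ι S) (r : ℕ), N ^ r = 0 →
  F.mem (1 + N)

/-- the hypothesis on the semisimple part of linear matrices -/
def WH : Prop := ∀ (ι : Type) [Fintype ι] [DecidableEq ι] (a b c c' : Matrix ι ι S),
  D.Hm 0 a → D.Hm 1 b → D.Hm 0 c → D.Hm (-1) c' → c * a + c' * b = 1 → a * c + b * c' = 1 →
  c * a * (c * a) = c * a → a * c * (a * c) = a * c → F.mem (a * (c * a) + b * (c' * b))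

theorem linear_mem (hN : NilH F) (hW : WH F D) {ι : Type} [Fintype ι] [DecidableEq ι]
    {B C : Matrix ι ι S} (hBC : B * C = 1) (hCB : C * B = 1)
    (hB : ∀ i, i ≠ 0 → i ≠ 1 → D.pt i B = 0) : F.mem B := by
  obtain ⟨n, hn⟩ := D.fin_pt C
  have ha := D.hm_pt 0 B
  have hb := D.hm_pt 1 B
  have hc := D.hm_pt 0 C
  have hc' := D.hm_pt (-1) C
  have hsum : B = D.pt 0 B + D.pt 1 B := by
    apply D.ext_pt
    intro i
    rw [D.pt_add, D.pt_hm ha, D.pt_hm hb]
    by_cases h0 : i = 0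
    · subst h0; simp
    · by_cases h1 : i = 1
      · subst h1; simp
      · rw [if_neg h0, if_neg h1, add_zero, hB i h0 h1]
  have R1 : ∀ i, D.pt 0 B * D.pt i C + D.pt 1 B * D.pt (i - 1) C = if i = 0 then 1 else 0 := by
    intro i
    have h1 : D.pt i (B * C) = D.pt i ((D.pt 0 B + D.pt 1 B) * C) := by rw [← hsum]
    rw [hBC, D.pt_hm D.hm_one, Matrix.add_mul, D.pt_add, D.pt_mul_left ha, D.pt_mul_left hb,
      sub_zero] at h1
    exact h1.symm
  have R2 : ∀ i, D.pt i C * D.pt 0 B + D.pt (i - 1) C * D.pt 1 B = if i = 0 then 1 else 0 := by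
    intro i
    have h1 : D.pt i (C * B) = D.pt i (C * (D.pt 0 B + D.pt 1 B)) := by rw [← hsum]
    rw [hCB, D.pt_hm D.hm_one, Matrix.mul_add, D.pt_add, D.pt_mul_right ha, D.pt_mul_right hb,
      sub_zero] at h1
    exact h1.symm
  have Z1 : ∀ (m : ℕ) (i j : ℤ), i < 0 → 0 ≤ j → D.pt i C * D.pt 1 B * D.pt j C
      = D.pt (i - m) C * D.pt 1 B * D.pt (j + m) C := by
    intro m
    induction m with
    | zero => intro i j _ _; simp
    | succ m ih =>
      intro i j hi hj
      rw [ih i j hi hj]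
      have h1 := R1 (j + m + 1)
      rw [if_neg (by omega), add_sub_cancel_right] at h1
      have h2 := R2 (i - m)
      rw [if_neg (by omega)] at h2
      have e1 : i - ((m + 1 : ℕ) : ℤ) = i - m - 1 := by push_cast; ring
      have e2 : j + ((m + 1 : ℕ) : ℤ) = j + m + 1 := by push_cast; ring
      rw [Matrix.mul_assoc, eq_neg_of_add_eq_zero_right h1, Matrix.mul_neg, ← Matrix.mul_assoc,
        eq_neg_of_add_eq_zero_left h2, Matrix.neg_mul, neg_neg, e1, e2]
  have Z2 : ∀ (m : ℕ) (i j : ℤ), j < 0 → 0 ≤ i → D.pt i C * D.pt 1 B * D.pt j C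
      = D.pt (i + m) C * D.pt 1 B * D.pt (j - m) C := by
    intro m
    induction m with
    | zero => intro i j _ _; simp
    | succ m ih =>
      intro i j hj hi
      rw [ih i j hj hi]
      have h1 := R1 (j - m)
      rw [if_neg (by omega)] at h1
      have h2 := R2 (i + m + 1)
      rw [if_neg (by omega), add_sub_cancel_right] at h2
      have e1 : j - ((m + 1 : ℕ) : ℤ) = j - m - 1 := by push_cast; ring
      have e2 : i + ((m + 1 : ℕ) : ℤ) = i + m + 1 := by push_cast; ring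
      rw [eq_neg_of_add_eq_zero_right h2, Matrix.neg_mul, Matrix.mul_assoc,
        eq_neg_of_add_eq_zero_left h1, Matrix.mul_neg, neg_neg, ← Matrix.mul_assoc, e1, e2]
  have z1 : D.pt (-1) C * D.pt 1 B * D.pt 0 C = 0 := by
    rw [Z1 (n + 1) (-1) 0 (by omega) le_rfl, hn _ (by omega), Matrix.zero_mul, Matrix.zero_mul]
  have z2 : D.pt 0 C * D.pt 1 B * D.pt (-1) C = 0 := by
    rw [Z2 (n + 1) 0 (-1) (by omega) le_rfl, hn _ (by omega), Matrix.zero_mul, Matrix.zero_mul]
  have r1 := R1 0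
  have r2 := R2 0
  rw [if_pos rfl, zero_sub] at r1 r2
  -- abbreviations
  generalize hag : D.pt 0 B = a at *
  generalize hbg : D.pt 1 B = b at *
  generalize hcg : D.pt 0 C = c at *
  generalize hcg' : D.pt (-1) C = c' at *
  have hf : c * a * (c * a) = c * a := by
    have h1 : a * c = 1 - b * c' := eq_sub_of_add_eq r1
    calc c * a * (c * a) = c * (a * c) * a := by simp only [Matrix.mul_assoc]
      _ = c * a - c * b * c' * a := by
        rw [h1, Matrix.mul_sub, Matrix.mul_one, Matrix.sub_mul]; simp only [Matrix.mul_assoc]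
      _ = _ := by rw [z2, Matrix.zero_mul, sub_zero]
  have he : a * c * (a * c) = a * c := by
    have h1 : c * a = 1 - c' * b := eq_sub_of_add_eq r2
    calc a * c * (a * c) = a * (c * a) * c := by simp only [Matrix.mul_assoc]
      _ = a * c - a * (c' * b * c) := by
        rw [h1, Matrix.mul_sub, Matrix.mul_one, Matrix.sub_mul]; simp only [Matrix.mul_assoc]
      _ = _ := by rw [z1, Matrix.mul_zero, sub_zero]
  have hWm := hW ι a b c c' ha hb hc hc' r2 r1 hf he
  obtain ⟨f, hfd⟩ : ∃ f, f = c * a := ⟨_, rfl⟩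
  obtain ⟨g, hgd⟩ : ∃ g, g = c' * b := ⟨_, rfl⟩
  obtain ⟨e, hed⟩ : ∃ e, e = a * c := ⟨_, rfl⟩
  obtain ⟨h, hhd⟩ : ∃ h, h = b * c' := ⟨_, rfl⟩
  rw [← hfd, ← hgd] at hWm r2
  rw [← hed, ← hhd] at r1
  rw [← hfd] at hf
  rw [← hed] at he
  have hff := D.hm_mul hc ha
  rw [← hfd, add_zero] at hff
  have hgg := D.hm_mul hc' hb
  rw [← hgd, neg_add_cancel] at hgg
  -- commutation
  have f1 : f = 1 - g := eq_sub_of_add_eq r2
  have g1 : g = 1 - f := eq_sub_of_add_eq' r2
  have e1 : e = 1 - h := eq_sub_of_add_eq r1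
  have h1 : h = 1 - e := eq_sub_of_add_eq' r1
  have fg : f * g = 0 := by rw [g1, Matrix.mul_sub, Matrix.mul_one, hf, sub_self]
  have gf : g * f = 0 := by rw [g1, Matrix.sub_mul, Matrix.one_mul, hf, sub_self]
  have gg : g * g = g := by
    nth_rewrite 2 [g1]
    rw [Matrix.mul_sub, Matrix.mul_one, gf, sub_zero]
  have hh : h * h = h := by
    have eh : e * h = 0 := by rw [h1, Matrix.mul_sub, Matrix.mul_one, he, sub_self]
    nth_rewrite 1 [h1]
    rw [Matrix.sub_mul, Matrix.one_mul, eh, sub_zero]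
  have af : a * f = e * a := by rw [hfd, hed, Matrix.mul_assoc]
  have bg : b * g = h * b := by rw [hgd, hhd, Matrix.mul_assoc]
  have ce : c * e = f * c := by rw [hfd, hed, Matrix.mul_assoc]
  have ch' : c' * h = g * c' := by rw [hgd, hhd, Matrix.mul_assoc]
  have ch : c * h = g * c := by
    rw [h1, Matrix.mul_sub, Matrix.mul_one, ce, g1, Matrix.sub_mul, Matrix.one_mul]
  have ce' : c' * e = f * c' := by
    rw [e1, Matrix.mul_sub, Matrix.mul_one, ch', f1, Matrix.sub_mul, Matrix.one_mul]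
  have bf : b * f = e * b := by
    rw [f1, Matrix.mul_sub, Matrix.mul_one, bg, e1, Matrix.sub_mul, Matrix.one_mul]
  obtain ⟨W, hWd⟩ : ∃ W, W = a * f + b * g := ⟨_, rfl⟩
  obtain ⟨W', hWd'⟩ : ∃ W', W' = f * c + g * c' := ⟨_, rfl⟩
  rw [← hWd] at hWm
  have cbg : c * b * g = g * (c * b) := by
    rw [Matrix.mul_assoc, bg, ← Matrix.mul_assoc, ch, Matrix.mul_assoc]
  have cbg' : c' * a * f = f * (c' * a) := by
    rw [Matrix.mul_assoc, af, ← Matrix.mul_assoc, ce', Matrix.mul_assoc]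
  have WW' : W * W' = 1 := by
    rw [hWd, hWd', Matrix.add_mul, Matrix.mul_add, Matrix.mul_add]
    have x1 : a * f * (f * c) = e := by
      rw [← Matrix.mul_assoc, Matrix.mul_assoc a f f, hf, af, Matrix.mul_assoc, ← hed, he]
    have x2 : a * f * (g * c') = 0 := by
      rw [← Matrix.mul_assoc, Matrix.mul_assoc a f g, fg, Matrix.mul_zero, Matrix.zero_mul]
    have x3 : b * g * (f * c) = 0 := by
      rw [← Matrix.mul_assoc, Matrix.mul_assoc b g f, gf, Matrix.mul_zero, Matrix.zero_mul]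
    have x4 : b * g * (g * c') = h := by
      rw [← Matrix.mul_assoc, Matrix.mul_assoc b g g, gg, bg, Matrix.mul_assoc, ← hhd, hh]
    rw [x1, x2, x3, x4, add_zero, zero_add, r1]
  have W'W : W' * W = 1 := by
    rw [hWd, hWd', Matrix.add_mul, Matrix.mul_add, Matrix.mul_add]
    have x1 : f * c * (a * f) = f := by
      rw [← Matrix.mul_assoc, Matrix.mul_assoc f c a, ← hfd, hf, hf]
    have x2 : f * c * (b * g) = 0 := by
      rw [← Matrix.mul_assoc, Matrix.mul_assoc f c b, Matrix.mul_assoc f, cbg, ← Matrix.mul_assoc,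
        fg, Matrix.zero_mul]
    have x3 : g * c' * (a * f) = 0 := by
      rw [← Matrix.mul_assoc, Matrix.mul_assoc g c' a, Matrix.mul_assoc g, cbg', ← Matrix.mul_assoc,
        gf, Matrix.zero_mul]
    have x4 : g * c' * (b * g) = g := by
      rw [← Matrix.mul_assoc, Matrix.mul_assoc g c' b, ← hgd, gg, gg]
    rw [x1, x2, x3, x4, add_zero, zero_add, r2]
  obtain ⟨P, hP⟩ : ∃ P, P = f * (c * b) := ⟨_, rfl⟩
  obtain ⟨Q, hQ⟩ : ∃ Q, Q = g * (c' * a) := ⟨_, rfl⟩
  have PQ : P * Q = 0 := by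
    rw [hP, hQ, ← Matrix.mul_assoc, Matrix.mul_assoc f (c * b) g, cbg, ← Matrix.mul_assoc f g, fg,
      Matrix.zero_mul, Matrix.zero_mul]
  have QP : Q * P = 0 := by
    rw [hP, hQ, ← Matrix.mul_assoc, Matrix.mul_assoc g (c' * a) f, cbg', ← Matrix.mul_assoc g f, gf,
      Matrix.zero_mul, Matrix.zero_mul]
  have W'B : W' * B = 1 + P + Q := by
    rw [hsum, hWd', Matrix.add_mul, Matrix.mul_add, Matrix.mul_add, Matrix.mul_assoc f c a, ← hfd,
      hf, Matrix.mul_assoc g c' b, ← hgd, gg, Matrix.mul_assoc f c b, ← hP,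
      Matrix.mul_assoc g c' a, ← hQ, ← r2]
    abel
  have e3 : (1 + P) * (1 + Q) = W' * B := by
    rw [W'B, Matrix.mul_add, Matrix.mul_one, Matrix.add_mul, Matrix.one_mul, PQ, add_zero]
  have e4 : (1 + Q) * (1 + P) = W' * B := by
    rw [W'B, Matrix.mul_add, Matrix.mul_one, Matrix.add_mul, Matrix.one_mul, QP, add_zero]
    abel
  have e5 : W' * B * (C * W) = 1 := by
    rw [← Matrix.mul_assoc, Matrix.mul_assoc W' B C, hBC, Matrix.mul_one, W'W]
  have hPm : D.Hm 1 P := by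
    rw [hP]
    exact D.hm_congr (by norm_num) (D.hm_mul hff (D.hm_mul hc hb))
  have hQm : D.Hm (-1) Q := by
    rw [hQ]
    exact D.hm_congr (by norm_num) (D.hm_mul hgg (D.hm_mul hc' ha))
  have nP : ∃ r, P ^ r = 0 := by
    obtain ⟨m, hm⟩ := D.fin_pt ((1 + Q) * (C * W))
    refine nil_seq P (fun k => D.pt k ((1 + Q) * (C * W))) ?_ m hm
    intro k
    have e6 : (1 + P) * ((1 + Q) * (C * W)) = 1 := by rw [← Matrix.mul_assoc, e3, e5]
    have e7 : D.pt k ((1 + P) * ((1 + Q) * (C * W))) = D.pt k 1 := by rw [e6]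
    rw [Matrix.add_mul, Matrix.one_mul, D.pt_add, D.pt_mul_left hPm, D.pt_hm D.hm_one] at e7
    exact e7
  have nQ : ∃ r, Q ^ r = 0 := by
    obtain ⟨m, hm⟩ := D.fin_pt ((1 + P) * (C * W))
    refine nil_seq Q (fun k => D.pt (-k) ((1 + P) * (C * W))) ?_ m (fun k hk => hm _ (by omega))
    intro k
    have e6 : (1 + Q) * ((1 + P) * (C * W)) = 1 := by rw [← Matrix.mul_assoc, e4, e5]
    have e7 : D.pt (-k) ((1 + Q) * ((1 + P) * (C * W))) = D.pt (-k) 1 := by rw [e6]
    rw [Matrix.add_mul, Matrix.one_mul, D.pt_add, D.pt_mul_left hQm, D.pt_hm D.hm_one] at e7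
    have e8 : -k - -1 = -(k - 1) := by ring
    rw [e8] at e7
    rw [e7]
    by_cases hk : k = 0
    · rw [if_pos hk, if_pos (by omega)]
    · rw [if_neg hk, if_neg (by omega)]
  obtain ⟨r, hr⟩ := nP
  obtain ⟨s, hs⟩ := nQ
  have h6 := F.mul hWm (F.mul (hN ι P r hr) (hN ι Q s hs))
  rwa [e3, ← Matrix.mul_assoc, WW', Matrix.one_mul] at h6

/-- linearisation -/
theorem higman (hlin : ∀ (ι : Type) [Fintype ι] [DecidableEq ι] (B : Matrix ι ι S), IsUnit B →
      (∀ i, i ≠ 0 → i ≠ 1 → D.pt i B = 0) → F.mem B)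
    (T T' : S) (hT : T' * T = 1) (h1 : D.hp 1 T = T) (h2 : D.hp (-1) T' = T') :
    ∀ (n : ℕ) (ι : Type) [Fintype ι] [DecidableEq ι] (A : Matrix ι ι S), IsUnit A →
      (∀ i : ℤ, i < 0 ∨ (n : ℤ) + 1 < i → D.pt i A = 0) → F.mem A := by
  intro n
  induction n with
  | zero =>
    intro ι _ _ A hA h
    apply hlin ι A hA
    intro i hi0 hi1
    apply h
    omega
  | succ n ih =>
    intro ι _ _ A hA h
    have hE := D.hm_pt (n + 2) A
    obtain ⟨E, hEd⟩ : ∃ E, E = D.pt (n + 2) A := ⟨_, rfl⟩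
    rw [← hEd] at hE
    have hTm : D.Hm 1 (Matrix.diagonal fun _ : ι => T) := by
      ext1 x y
      change D.hp 1 _ = _
      by_cases hxy : x = y
      · subst hxy; rw [Matrix.diagonal_apply_eq, h1]
      · rw [Matrix.diagonal_apply_ne _ hxy, map_zero]
    have hTm' : D.Hm (-1) (Matrix.diagonal fun _ : ι => T') := by
      ext1 x y
      change D.hp (-1) _ = _
      by_cases hxy : x = y
      · subst hxy; rw [Matrix.diagonal_apply_eq, h2]
      · rw [Matrix.diagonal_apply_ne _ hxy, map_zero]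
    have hTT : (Matrix.diagonal fun _ : ι => T') * (Matrix.diagonal fun _ : ι => T) = 1 := by
      rw [Matrix.diagonal_mul_diagonal]
      simp only [hT]
      exact Matrix.diagonal_one
    obtain ⟨τ, hτ⟩ : ∃ τ : Matrix ι ι S, τ = Matrix.diagonal fun _ : ι => T := ⟨_, rfl⟩
    obtain ⟨τ', hτ'⟩ : ∃ τ' : Matrix ι ι S, τ' = Matrix.diagonal fun _ : ι => T' := ⟨_, rfl⟩
    rw [← hτ] at hTm hTT
    rw [← hτ'] at hTm' hTT
    have hC : D.Hm (n + 1) (E * τ') := D.hm_congr (by ring) (D.hm_mul hE hTm')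
    have e1 : A - E - E * τ' * (-τ) = A := by
      rw [Matrix.mul_neg, sub_neg_eq_add, Matrix.mul_assoc, hTT, Matrix.mul_one, sub_add_cancel]
    have e2 := (F.schur (A := A - E) (E * τ') (-τ))
    rw [e1] at e2
    apply e2.1
    apply ih
    · have key : (fromBlocks (A - E) (E * τ') (-τ) 1 : Matrix (ι ⊕ ι) (ι ⊕ ι) S)
          = fromBlocks 1 (E * τ') 0 1 * fromBlocks A 0 0 1 * fromBlocks 1 0 (-τ) 1 := by
        rw [fromBlocks_multiply, fromBlocks_multiply]
        simp only [Matrix.mul_one, Matrix.one_mul, Matrix.mul_zero, Matrix.zero_mul, add_zero,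
          zero_add]
        congr 1
        rw [Matrix.mul_neg, Matrix.mul_assoc, hTT, Matrix.mul_one, sub_eq_add_neg]
      rw [key]
      exact ((F.isUnit (F.up _)).mul (isUnit_stab hA)).mul (F.isUnit (F.lo _))
    · intro i hi
      have hpt : D.pt i (fromBlocks (A - E) (E * τ') (-τ) (1 : Matrix ι ι S))
          = fromBlocks (D.pt i (A - E)) (D.pt i (E * τ')) (D.pt i (-τ)) (D.pt i 1) :=
        fromBlocks_map _ _ _ _ _
      rw [hpt, D.pt_sub, D.pt_neg, D.pt_hm hE, D.pt_hm hC, D.pt_hm hTm, D.pt_hm D.hm_one]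
      have e3 : D.pt i A - (if i = (n : ℤ) + 2 then E else 0) = 0 := by
        by_cases h3 : i = (n : ℤ) + 2
        · rw [if_pos h3, h3, hEd, sub_self]
        · rw [if_neg h3, sub_zero]
          apply h
          push_cast
          omega
      rw [e3, if_neg (by omega), if_neg (by omega), if_neg (by omega), neg_zero]
      exact fromBlocks_zero

/-- all invertible matrices -/
theorem all_mem (hN : NilH F) (hW : WH F D) (T T' : S) (hT : T' * T = 1) (h1 : D.hp 1 T = T)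
    (h2 : D.hp (-1) T' = T')
    (hTF : ∀ (ι : Type) [Fintype ι] [DecidableEq ι], F.mem (Matrix.diagonal fun _ : ι => T))
    (ι : Type) [Fintype ι] [DecidableEq ι] (A : Matrix ι ι S) (hA : IsUnit A) : F.mem A := by
  have hlin : ∀ (ι : Type) [Fintype ι] [DecidableEq ι] (B : Matrix ι ι S), IsUnit B →
      (∀ i, i ≠ 0 → i ≠ 1 → D.pt i B = 0) → F.mem B := by
    intro ι _ _ B hB h
    obtain ⟨C, h3, h4⟩ := exists_inv hB
    exact linear_mem F D hN hW h3 h4 h
  obtain ⟨n, hn⟩ := D.fin_pt A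
  obtain ⟨τ, hτ⟩ : ∃ τ : Matrix ι ι S, τ = Matrix.diagonal fun _ : ι => T := ⟨_, rfl⟩
  have hTm : D.Hm 1 τ := by
    rw [hτ]
    ext1 x y
    change D.hp 1 _ = _
    by_cases hxy : x = y
    · subst hxy; rw [Matrix.diagonal_apply_eq, h1]
    · rw [Matrix.diagonal_apply_ne _ hxy, map_zero]
  have hτF : F.mem τ := by rw [hτ]; exact hTF ι
  have hpow : ∀ k : ℕ, F.mem (τ ^ k) ∧ D.Hm k (τ ^ k) := by
    intro k
    induction k with
    | zero => rw [pow_zero]; exact ⟨F.one, D.hm_one⟩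
    | succ k ih =>
      rw [pow_succ]
      exact ⟨F.mul ih.1 hτF, D.hm_congr (by push_cast; ring) (D.hm_mul ih.2 hTm)⟩
  apply F.cancel_right (hpow n).1
  apply higman F D hlin T T' hT h1 h2 (2 * n) ι
  · exact hA.mul (F.isUnit (hpow n).1)
  · intro i hi
    rw [D.pt_mul_right (hpow n).2, hn _ (by omega), Matrix.zero_mul]

end fit

end Pool.Agent.K6.H28.K1
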