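import Pool.Agent.K6.H28.K1.KF
import Pool.Agent.K6.H28.K1.Fit

set_option autoImplicit false
set_option linter.unusedSectionVars false
set_option linter.unusedSimpArgs false

/-! # Invertible matrices over Euclidean domains -/

namespace Pool.Agent.K6.H28.K1

open Matrix

/-- division with remainder -/
def Eucl (Λ : Type) [Ring Λ] : Prop :=
  ∃ ν : Λ → ℕ, ∀ a b : Λ, a ≠ 0 → ∃ q, b - a * q = 0 ∨ ν (b - a * q) < ν a

theorem eucl_div (D : Type) [DivisionRing D] : Eucl D :=
  ⟨fun _ => 0, fun a b ha => ⟨a⁻¹ * b, Or.inl (by rw [← mul_assoc, mul_inv_cancel₀ ha, one_mul,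
    sub_self])⟩⟩

theorem eucl_int : Eucl ℤ := by
  refine ⟨Int.natAbs, fun a b ha => ⟨b / a, Or.inr ?_⟩⟩
  have h1 : b - a * (b / a) = b % a := by rw [Int.emod_def]
  rw [h1]
  have h2 := Int.emod_nonneg b ha
  have h3 := Int.emod_lt_abs b ha
  rw [Int.abs_eq_natAbs] at h3
  omega

variable {Λ : Type} [Ring Λ] [IsDomain Λ]

theorem right_mem (F : KF Λ) {ι : Type} [Fintype ι] [DecidableEq ι] (hE : Eucl Λ)
    (hU : ∀ (κ : Type) [Fintype κ] [DecidableEq κ] (u : κ → Λˣ),
      F.mem (Matrix.diagonal fun x => (u x : Λ)))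
    (ih : ∀ A : Matrix ι ι Λ, IsUnit A → F.mem A)
    (A : Matrix (ι ⊕ Unit) (ι ⊕ Unit) Λ) (hA : IsUnit A) : F.mem A := by
  classical
  obtain ⟨ν, hν⟩ := hE
  -- the matrices equivalent to `A` whose last entry is not zero
  let P : ℕ → Prop := fun k => ∃ E : Matrix (ι ⊕ Unit) (ι ⊕ Unit) Λ, F.mem E ∧
    (A * E) (Sum.inr ()) (Sum.inr ()) ≠ 0 ∧ ν ((A * E) (Sum.inr ()) (Sum.inr ())) = k
  have swap : ∀ x : ι, F.mem (Matrix.diagonal fun z : ι ⊕ Unit =>
      if z = Sum.inr () then (-1 : Λ) else 1) := by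
    intro x
    convert hU (ι ⊕ Unit) (fun z => if z = Sum.inr () then -1 else 1) using 2
    funext z
    split_ifs <;> simp
  -- if an entry of the last row of `A * E` is not zero it can be moved to the last place
  have move : ∀ (E : Matrix (ι ⊕ Unit) (ι ⊕ Unit) Λ), F.mem E → ∀ y : ι ⊕ Unit,
      (A * E) (Sum.inr ()) y ≠ 0 → P (ν ((A * E) (Sum.inr ()) y)) := by
    intro E hE y hy
    rcases y with y | y
    · -- `E' = (1 + e_{y,last}) (1 - e_{last,y}) (1 + e_{y,last})`
      have h1 := F.tv (Sum.inl y : ι ⊕ Unit) (Sum.inr ()) (by simp) (1 : Λ)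
      have h2 := F.tv (Sum.inr () : ι ⊕ Unit) (Sum.inl y) (by simp) (-1 : Λ)
      obtain ⟨T1, hT1⟩ : ∃ T1 : Matrix (ι ⊕ Unit) (ι ⊕ Unit) Λ,
        T1 = 1 + Matrix.single (Sum.inl y) (Sum.inr ()) 1 := ⟨_, rfl⟩
      obtain ⟨T2, hT2⟩ : ∃ T2 : Matrix (ι ⊕ Unit) (ι ⊕ Unit) Λ,
        T2 = 1 + Matrix.single (Sum.inr ()) (Sum.inl y) (-1) := ⟨_, rfl⟩
      rw [← hT1] at h1
      rw [← hT2] at h2
      refine ⟨E * (T1 * T2 * T1), F.mul hE (F.mul (F.mul h1 h2) h1), ?_⟩
      have key : (A * (E * (T1 * T2 * T1))) (Sum.inr ()) (Sum.inr ())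
          = (A * E) (Sum.inr ()) (Sum.inl y) := by
        rw [← Matrix.mul_assoc, ← Matrix.mul_assoc, ← Matrix.mul_assoc, hT1, hT2]
        generalize A * E = B
        simp only [Matrix.mul_add, Matrix.add_mul, Matrix.mul_one, Matrix.one_mul,
          Matrix.single_mul_single_same, Matrix.add_apply, ← Matrix.mul_assoc, one_mul, mul_one,
          Matrix.mul_single_apply_same, ne_eq, reduceCtorEq, not_false_eq_true,
          Matrix.mul_single_apply_of_ne, mul_neg, add_zero, neg_mul]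
        abel
      rw [key]
      exact ⟨hy, rfl⟩
    · exact ⟨E, hE, hy, rfl⟩
  have hne : ∃ k, P k := by
    obtain ⟨C, h1, -⟩ := exists_inv hA
    have h2 : ∃ y, A (Sum.inr ()) y ≠ 0 := by
      by_contra hcon
      push Not at hcon
      have h3 := congrFun (congrFun h1 (Sum.inr ())) (Sum.inr ())
      rw [Matrix.mul_apply, Matrix.one_apply_eq] at h3
      simp only [hcon, zero_mul, Finset.sum_const_zero] at h3
      exact zero_ne_one h3
    obtain ⟨y, hy⟩ := h2
    have h3 := move 1 F.one y (by rwa [Matrix.mul_one])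
    exact ⟨_, h3⟩
  obtain ⟨E, hE, h1, h2⟩ := Nat.find_spec hne
  have hmin : ∀ k, P k → Nat.find hne ≤ k := fun k hk => Nat.find_min' hne hk
  obtain ⟨a, ha⟩ : ∃ a, a = (A * E) (Sum.inr ()) (Sum.inr ()) := ⟨_, rfl⟩
  rw [← ha] at h1 h2
  -- reduce the last row
  choose q hq using fun y : ι => hν a ((A * E) (Sum.inr ()) (Sum.inl y)) h1
  let L : Matrix (ι ⊕ Unit) (ι ⊕ Unit) Λ := fromBlocks 1 0 (Matrix.of fun _ y => -q y) 1
  have hL : F.mem L := F.lo _
  have hEL : F.mem (E * L) := F.mul hE hL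
  have hlast : (A * (E * L)) (Sum.inr ()) (Sum.inr ()) = a := by
    rw [← Matrix.mul_assoc, Matrix.mul_apply, Fintype.sum_sum_type]
    simp [L, ha]
  have hrow : ∀ y : ι, (A * (E * L)) (Sum.inr ()) (Sum.inl y)
      = (A * E) (Sum.inr ()) (Sum.inl y) - a * q y := by
    intro y
    rw [← Matrix.mul_assoc, Matrix.mul_apply, Fintype.sum_sum_type]
    simp [L, ha, Matrix.one_apply, sub_eq_add_neg]
  have hzero : ∀ y : ι, (A * (E * L)) (Sum.inr ()) (Sum.inl y) = 0 := by
    intro y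
    rcases hq y with h3 | h3
    · rw [hrow, h3]
    · by_contra hcon
      have h4 := hmin _ (move (E * L) hEL (Sum.inl y) hcon)
      rw [hrow, ← h2] at h4
      omega
  -- the last entry is a unit
  have hu : IsUnit a := by
    obtain ⟨C, h3, -⟩ := exists_inv (hA.mul (F.isUnit hEL))
    have h4 := congrFun (congrFun h3 (Sum.inr ())) (Sum.inr ())
    rw [Matrix.mul_apply, Fintype.sum_sum_type, Matrix.one_apply_eq] at h4
    simp only [hzero, zero_mul, Finset.sum_const_zero, zero_add, Finset.univ_unique,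
      Finset.sum_singleton] at h4
    have h5 : a * C (Sum.inr ()) (Sum.inr ()) = 1 := by
      rw [← hlast]; exact h4
    have h6 : C (Sum.inr ()) (Sum.inr ()) * a = 1 := by
      have h7 : a * (C (Sum.inr ()) (Sum.inr ()) * a - 1) = 0 := by
        rw [mul_sub, ← mul_assoc, h5, one_mul, mul_one, sub_self]
      rcases mul_eq_zero.1 h7 with h8 | h8
      · exact absurd h8 h1
      · exact sub_eq_zero.1 h8
    exact ⟨⟨a, _, h5, h6⟩, rfl⟩
  obtain ⟨u, hu⟩ := hu
  -- scale and use the Schur complement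
  have hD : F.mem (Matrix.diagonal fun z : ι ⊕ Unit => (((Sum.elim (fun _ => 1) (fun _ => u⁻¹) :
      ι ⊕ Unit → Λˣ) z : Λˣ) : Λ)) := hU _ _
  have hAE : A * (E * L) * (Matrix.diagonal fun z : ι ⊕ Unit =>
      (((Sum.elim (fun _ => 1) (fun _ => u⁻¹) : ι ⊕ Unit → Λˣ) z : Λˣ) : Λ))
      = fromBlocks (A * (E * L)).toBlocks₁₁ (Matrix.of fun x _ =>
        (A * (E * L)) (Sum.inl x) (Sum.inr ()) * (u⁻¹ : Λˣ)) 0 1 := by
    ext x y
    rw [Matrix.mul_diagonal]
    rcases x with x | x <;> rcases y with y | y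
    · simp [Matrix.toBlocks₁₁]
    · simp
    · have := hzero y
      simp only [fromBlocks_apply₂₁, Matrix.zero_apply, Sum.elim_inl, Units.val_one, mul_one]
      exact this
    · simp only [fromBlocks_apply₂₂, Sum.elim_inr]
      change (A * (E * L)) (Sum.inr ()) (Sum.inr ()) * _ = _
      rw [hlast, ← hu, Units.mul_inv, Matrix.one_apply_eq]
  have hun : IsUnit (A * (E * L) * (Matrix.diagonal fun z : ι ⊕ Unit =>
      (((Sum.elim (fun _ => 1) (fun _ => u⁻¹) : ι ⊕ Unit → Λˣ) z : Λˣ) : Λ))) :=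
    (hA.mul (F.isUnit hEL)).mul (F.isUnit hD)
  have h8 : F.mem (A * (E * L) * (Matrix.diagonal fun z : ι ⊕ Unit =>
      (((Sum.elim (fun _ => 1) (fun _ => u⁻¹) : ι ⊕ Unit → Λˣ) z : Λˣ) : Λ))) := by
    rw [hAE] at hun ⊢
    generalize hX : (Matrix.of fun (x : ι) (_ : Unit) =>
        (A * (E * L)) (Sum.inl x) (Sum.inr ()) * ((u⁻¹ : Λˣ) : Λ)) = X at hun ⊢
    generalize (A * (E * L)).toBlocks₁₁ = B at hun ⊢
    rw [F.schur, Matrix.mul_zero, sub_zero]
    apply ih
    have h9 : (fromBlocks B X 0 1 : Matrix (ι ⊕ Unit) (ι ⊕ Unit) Λ)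
        = fromBlocks 1 X 0 1 * fromBlocks B 0 0 1 := by
      rw [fromBlocks_multiply]; simp
    rw [h9] at hun
    have h10 : IsUnit (fromBlocks B 0 0 (1 : Matrix Unit Unit Λ)) := by
      have h11 := F.isUnit (F.up X)
      exact (h11.mul_left_iff).1 hun
    obtain ⟨C, h11, h12⟩ := exists_inv h10
    rw [← Matrix.fromBlocks_toBlocks C, fromBlocks_multiply, ← fromBlocks_one,
      fromBlocks_inj] at h11 h12
    have h13 := h11.1
    have h14 := h12.1
    simp only [Matrix.zero_mul, Matrix.mul_zero, add_zero] at h13 h14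
    exact isUnit_of_inv h13 h14
  exact F.cancel_right hEL (F.cancel_right hD h8)

/-- Euclidean domains -/
theorem eucl_mem (F : KF Λ) (hE : Eucl Λ)
    (hU : ∀ (κ : Type) [Fintype κ] [DecidableEq κ] (u : κ → Λˣ),
      F.mem (Matrix.diagonal fun x => (u x : Λ)))
    (ι : Type) [Fintype ι] [DecidableEq ι] (A : Matrix ι ι Λ) (hA : IsUnit A) : F.mem A := by
  have hind : ∀ (n : ℕ) (A : Matrix (Fin n) (Fin n) Λ), IsUnit A → F.mem A := by
    intro n
    induction n with
    | zero =>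
      intro A _
      have : A = 1 := Subsingleton.elim _ _
      rw [this]
      exact F.one
    | succ n ih =>
      intro A hA
      let e : Fin n ⊕ Unit ≃ Fin (n + 1) :=
        ((Equiv.refl (Fin n)).sumCongr (Equiv.ofUnique Unit (Fin 1))).trans finSumFinEquiv
      have h1 : IsUnit (A.submatrix e e) := by
        obtain ⟨C, h2, h3⟩ := exists_inv hA
        apply isUnit_of_inv (B := C.submatrix e e)
        · rw [Matrix.submatrix_mul_equiv, h2, Matrix.submatrix_one_equiv]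
        · rw [Matrix.submatrix_mul_equiv, h3, Matrix.submatrix_one_equiv]
      have h2 := F.reindex e.symm (right_mem F hE hU ih _ h1)
      simpa using h2
  have h1 : IsUnit (A.submatrix (Fintype.equivFin ι).symm (Fintype.equivFin ι).symm) := by
    obtain ⟨C, h2, h3⟩ := exists_inv hA
    apply isUnit_of_inv (B := C.submatrix (Fintype.equivFin ι).symm (Fintype.equivFin ι).symm)
    · rw [Matrix.submatrix_mul_equiv, h2, Matrix.submatrix_one_equiv]
    · rw [Matrix.submatrix_mul_equiv, h3, Matrix.submatrix_one_equiv]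
  have h2 := F.reindex (Fintype.equivFin ι) (hind _ _ h1)
  simpa using h2

end Pool.Agent.K6.H28.K1
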