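import Mathlib

set_option autoImplicit false

/-! # Families of invertible matrices of all sizes which contain the elementary matrices -/

namespace Pool.Agent.K6.H28.K1

open Matrix

/-- a family of invertible matrices of all sizes which is closed under products, inverses, change of
the indices, stabilisation and destabilisation and which contains the elementary matrices -/
structure KF (S : Type) [Ring S] where
  mem : ∀ {ι : Type} [Fintype ι] [DecidableEq ι], Matrix ι ι S → Prop
  mul : ∀ {ι : Type} [Fintype ι] [DecidableEq ι] {A B : Matrix ι ι S}, mem A → mem B → mem (A * B)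
  inv : ∀ {ι : Type} [Fintype ι] [DecidableEq ι] {A : Matrix ι ι S}, mem A →
    ∃ B, A * B = 1 ∧ B * A = 1 ∧ mem B
  reindex : ∀ {ι κ : Type} [Fintype ι] [DecidableEq ι] [Fintype κ] [DecidableEq κ]
    {A : Matrix ι ι S} (e : κ ≃ ι), mem A → mem (A.submatrix e e)
  stab : ∀ {ι : Type} (κ : Type) [Fintype ι] [DecidableEq ι] [Fintype κ] [DecidableEq κ]
    {A : Matrix ι ι S}, mem A → mem (fromBlocks A 0 0 (1 : Matrix κ κ S))
  unstab : ∀ {ι κ : Type} [Fintype ι] [DecidableEq ι] [Fintype κ] [DecidableEq κ]
    {A : Matrix ι ι S}, mem (fromBlocks A 0 0 (1 : Matrix κ κ S)) → mem A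
  one : ∀ {ι : Type} [Fintype ι] [DecidableEq ι], mem (1 : Matrix ι ι S)
  tv : ∀ {ι : Type} [Fintype ι] [DecidableEq ι] (i j : ι), i ≠ j → ∀ c : S,
    mem (1 + Matrix.single i j c)

namespace KF

variable {S : Type} [Ring S] (F : KF S) {ι κ : Type} [Fintype ι] [DecidableEq ι] [Fintype κ]
  [DecidableEq κ]

theorem cancel_left {A B : Matrix ι ι S} (h : F.mem A) (h' : F.mem (A * B)) : F.mem B := by
  obtain ⟨C, -, h2, h3⟩ := F.inv h
  have := F.mul h3 h'
  rwa [← Matrix.mul_assoc, h2, Matrix.one_mul] at this

theorem cancel_right {A B : Matrix ι ι S} (h : F.mem B) (h' : F.mem (A * B)) : F.mem A := by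
  obtain ⟨C, h1, -, h3⟩ := F.inv h
  have := F.mul h' h3
  rwa [Matrix.mul_assoc, h1, Matrix.mul_one] at this

theorem up (X : Matrix ι κ S) : F.mem (fromBlocks 1 X 0 1) := by
  induction X using Matrix.induction_on' with
  | h_zero => rw [fromBlocks_one]; exact F.one
  | h_add X Y hX hY =>
    have := F.mul hX hY
    rw [fromBlocks_multiply] at this
    simp only [Matrix.mul_one, Matrix.one_mul, Matrix.mul_zero, Matrix.zero_mul, add_zero,
      zero_add] at this
    rwa [add_comm] at this
  | h_std_basis i j c =>
    have := F.tv (Sum.inl i : ι ⊕ κ) (Sum.inr j) (by simp) c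
    convert this using 1
    ext x y
    rcases x with x | x <;> rcases y with y | y <;> simp [Matrix.single_apply, Matrix.one_apply]

theorem lo (X : Matrix κ ι S) : F.mem (fromBlocks 1 0 X 1) := by
  have := F.reindex (Equiv.sumComm ι κ) (F.up X)
  convert this using 1
  ext x y
  rcases x with x | x <;> rcases y with y | y <;> simp [Matrix.one_apply]

theorem schur {A : Matrix ι ι S} (X : Matrix ι κ S) (Y : Matrix κ ι S) :
    F.mem (fromBlocks A X Y 1) ↔ F.mem (A - X * Y) := by
  have key : (fromBlocks A X Y 1 : Matrix (ι ⊕ κ) (ι ⊕ κ) S)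
      = fromBlocks 1 X 0 1 * fromBlocks (A - X * Y) 0 0 1 * fromBlocks 1 0 Y 1 := by
    rw [fromBlocks_multiply, fromBlocks_multiply]
    simp
  rw [key]
  constructor
  · intro h
    exact F.unstab (F.cancel_left (F.up X) (F.cancel_right (F.lo Y) h))
  · intro h
    exact F.mul (F.mul (F.up X) (F.stab κ h)) (F.lo Y)

theorem right_iff {C : Matrix κ κ S} : F.mem (fromBlocks (1 : Matrix ι ι S) 0 0 C) ↔ F.mem C := by
  constructor
  · intro h
    have := F.reindex (Equiv.sumComm κ ι) h
    apply F.unstab (κ := ι)
    convert this using 1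
    ext x y
    rcases x with x | x <;> rcases y with y | y <;> simp
  · intro h
    have := F.reindex (Equiv.sumComm ι κ) (F.stab ι h)
    convert this using 1
    ext x y
    rcases x with x | x <;> rcases y with y | y <;> simp

theorem schur' {B : Matrix κ κ S} (X : Matrix ι κ S) (Y : Matrix κ ι S) :
    F.mem (fromBlocks 1 X Y B) ↔ F.mem (B - Y * X) := by
  have key : (fromBlocks 1 X Y B : Matrix (ι ⊕ κ) (ι ⊕ κ) S)
      = fromBlocks 1 0 Y 1 * fromBlocks 1 0 0 (B - Y * X) * fromBlocks 1 X 0 1 := by
    rw [fromBlocks_multiply, fromBlocks_multiply]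
    simp
  rw [key]
  constructor
  · intro h
    exact F.right_iff.1 (F.cancel_left (F.lo Y) (F.cancel_right (F.up X) h))
  · intro h
    exact F.mul (F.mul (F.lo Y) (F.right_iff.2 h)) (F.up X)

theorem swap {X : Matrix ι κ S} {Y : Matrix κ ι S} (h : F.mem (1 + X * Y)) :
    F.mem (1 + Y * X) := by
  have h1 : F.mem (1 - (-X) * Y) := by rwa [Matrix.neg_mul, sub_neg_eq_add]
  have h2 := (F.schur' (-X) Y).1 ((F.schur (-X) Y).2 h1)
  rwa [Matrix.mul_neg, sub_neg_eq_add] at h2

theorem conj {A : Matrix ι κ S} {B : Matrix κ ι S} {M : Matrix κ κ S} (h1 : A * B = 1)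
    (h2 : B * A = 1) (h : F.mem M) : F.mem (A * M * B) := by
  have h3 : F.mem (1 + ((M - 1) * B) * A) := by
    rw [Matrix.mul_assoc, h2, Matrix.mul_one]
    rwa [add_sub_cancel]
  have h4 := F.swap h3
  have h5 : 1 + A * ((M - 1) * B) = A * M * B := by
    rw [Matrix.sub_mul, Matrix.mul_sub, Matrix.one_mul, h1, Matrix.mul_assoc]
    abel
  rwa [h5] at h4

theorem blocks {A : Matrix ι ι S} {C : Matrix κ κ S} (h1 : F.mem A) (h2 : F.mem C) :
    F.mem (fromBlocks A 0 0 C) := by
  have := F.mul (F.stab κ h1) (F.right_iff (ι := ι).2 h2)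
  rw [fromBlocks_multiply] at this
  simpa using this

/-- the relation of a triangular matrix -/
theorem split {M q : Matrix ι ι S} (hq : q * q = q) (hM : q * M * (1 - q) = 0)
    (h1 : F.mem (1 + M)) (h2 : F.mem (1 + q * M * q)) : F.mem (1 + (1 - q) * M * (1 - q)) := by
  have hp : (1 - q) * (1 - q) = 1 - q := by
    rw [Matrix.mul_sub, Matrix.mul_one, Matrix.sub_mul, Matrix.one_mul, hq, sub_self, sub_zero]
  have hqM : q * M * q = q * M := by
    rw [Matrix.mul_sub, Matrix.mul_one, sub_eq_zero] at hM
    exact hM.symm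
  have h3 : (1 + q * M * q) * (1 + (1 - q) * M) = 1 + M := by
    have e1 : q * M * q * ((1 - q) * M) = 0 := by
      rw [← Matrix.mul_assoc, Matrix.mul_assoc (q * M) q (1 - q), Matrix.mul_sub, Matrix.mul_one, hq,
        sub_self, Matrix.mul_zero, Matrix.zero_mul]
    rw [Matrix.mul_add, Matrix.mul_one, Matrix.add_mul, Matrix.one_mul, e1, add_zero, hqM,
      Matrix.sub_mul, Matrix.one_mul]
    abel
  rw [← h3] at h1
  have h4 : F.mem (1 + (1 - q) * ((1 - q) * M)) := by
    rw [← Matrix.mul_assoc, hp]
    exact F.cancel_left h2 h1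
  exact F.swap h4

theorem split' {M q : Matrix ι ι S} (hq : q * q = q) (hM : q * M * (1 - q) = 0)
    (h1 : F.mem (1 + (1 - q) * M * (1 - q))) (h2 : F.mem (1 + q * M * q)) : F.mem (1 + M) := by
  have hp : (1 - q) * (1 - q) = 1 - q := by
    rw [Matrix.mul_sub, Matrix.mul_one, Matrix.sub_mul, Matrix.one_mul, hq, sub_self, sub_zero]
  have hqM : q * M * q = q * M := by
    rw [Matrix.mul_sub, Matrix.mul_one, sub_eq_zero] at hM
    exact hM.symm
  have h3 : (1 + q * M * q) * (1 + (1 - q) * M) = 1 + M := by
    have e1 : q * M * q * ((1 - q) * M) = 0 := by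
      rw [← Matrix.mul_assoc, Matrix.mul_assoc (q * M) q (1 - q), Matrix.mul_sub, Matrix.mul_one, hq,
        sub_self, Matrix.mul_zero, Matrix.zero_mul]
    rw [Matrix.mul_add, Matrix.mul_one, Matrix.add_mul, Matrix.one_mul, e1, add_zero, hqM,
      Matrix.sub_mul, Matrix.one_mul]
    abel
  rw [← h3]
  apply F.mul h2
  have h4 := F.swap h1
  rwa [← Matrix.mul_assoc, hp] at h4

/-- strictly triangular matrices -/
theorem nil_tri (M : Matrix ι ι S) (ρ : ι → ℕ) (h : ∀ x y, M x y ≠ 0 → ρ y < ρ x) :
    F.mem (1 + M) := by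
  classical
  let q : ℕ → Matrix ι ι S := fun k => Matrix.diagonal fun x => if ρ x < k then 1 else 0
  have hq : ∀ k, q k * q k = q k := by
    intro k
    simp only [q]
    rw [Matrix.diagonal_mul_diagonal]
    congr 1
    funext x
    split_ifs <;> simp
  have hk : ∀ k, F.mem (1 + q k * M * q k) := by
    intro k
    induction k with
    | zero =>
      have : q 0 = 0 := by
        ext x y
        simp [q, Matrix.diagonal]
      rw [this, Matrix.mul_zero, add_zero]
      exact F.one
    | succ k ih =>
      have hqq : q k * q (k + 1) = q k := by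
        simp only [q]
        rw [Matrix.diagonal_mul_diagonal]
        congr 1
        funext x
        by_cases hx : ρ x < k
        · simp [hx, Nat.lt_succ_of_lt hx]
        · simp [hx]
      have hqq' : q (k + 1) * q k = q k := by
        simp only [q]
        rw [Matrix.diagonal_mul_diagonal]
        congr 1
        funext x
        by_cases hx : ρ x < k
        · simp [hx, Nat.lt_succ_of_lt hx]
        · simp [hx]
      have e1 : q k * (q (k + 1) * M * q (k + 1)) * q k = q k * M * q k := by
        calc _ = (q k * q (k + 1)) * M * (q (k + 1) * q k) := by simp only [Matrix.mul_assoc]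
          _ = _ := by rw [hqq, hqq']
      apply F.split' (q := q k) (hq k)
      · ext x y
        simp only [q, Matrix.mul_sub, Matrix.mul_one, Matrix.sub_apply, Matrix.diagonal_mul,
          Matrix.mul_diagonal, Matrix.zero_apply]
        by_cases h0 : M x y = 0
        · simp [h0]
        · have := h x y h0
          by_cases hx : ρ x < k
          · have hy : ρ y < k := by omega
            simp [hx, hy]
          · simp [hx]
      · have : (1 - q k) * (q (k + 1) * M * q (k + 1)) * (1 - q k) = 0 := by
          ext x y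
          simp only [q, Matrix.mul_sub, Matrix.mul_one, Matrix.sub_mul, Matrix.one_mul,
            Matrix.sub_apply, Matrix.diagonal_mul, Matrix.mul_diagonal, Matrix.zero_apply]
          by_cases h0 : M x y = 0
          · simp [h0]
          · have := h x y h0
            by_cases hx : ρ x < k + 1
            · have hy : ρ y < k := by omega
              have hy' : ρ y < k + 1 := by omega
              simp [hx, hy, hy']
            · have hx' : ¬ ρ x < k := by omega
              simp [hx, hx']
        rw [this, add_zero]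
        exact F.one
      · rw [e1]
        exact ih
  have hb : ∃ b, ∀ x, ρ x < b := ⟨Finset.univ.sup ρ + 1, fun x =>
    Nat.lt_succ_of_le (Finset.le_sup (Finset.mem_univ x))⟩
  obtain ⟨b, hb⟩ := hb
  have h1 : q b = 1 := by
    ext x y
    simp [q, hb, Matrix.diagonal, Matrix.one_apply]
  have := hk b
  rwa [h1, Matrix.one_mul, Matrix.mul_one] at this

end KF

end Pool.Agent.K6.H28.K1
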