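import Pool.Agent.K6.H28.K1.KF
import Pool.Agent.K6.H28.SF.FR

set_option autoImplicit false

/-! # Unipotent matrices over regular rings -/

namespace Pool.Agent.K6.H28.K1

open Matrix Pool.Agent.K6.H28.SF

variable {S : Type} [Ring S]

theorem nil_step (F : KF S) {ι : Type} [Fintype ι] [DecidableEq ι] {q N : Matrix ι ι S}
    (hq : q * q = q) (hN : q * N * q = N) {r : ℕ} (X : ℕ → Submodule S (ι → S)) (h0 : X 0 = ⊥)
    (hr : ∀ v, v ∈ X r ↔ v ᵥ* q = v) (hX : Monotone X) (hNX : ∀ i, ∀ v ∈ X (i + 1), v ᵥ* N ∈ X i)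
    (κ : Fin r → Type) [∀ i, Fintype (κ i)] [∀ i, DecidableEq (κ i)] (Q : Fin r → Type)
    [∀ i, AddCommGroup (Q i)] [∀ i, Module S (Q i)]
    (g : ∀ i : Fin r, X (i + 1) →ₗ[S] Q i) (hgk : ∀ i x, g i x = 0 ↔ (x : ι → S) ∈ X i)
    (hg : ∀ i, Function.Surjective (g i)) (f : ∀ i, (κ i → S) →ₗ[S] Q i)
    (hf : ∀ i, Function.Surjective (f i)) :
    ∃ (ι' : Type) (_ : Fintype ι') (_ : DecidableEq ι') (q' N' : Matrix ι' ι' S)
      (X' : ℕ → Submodule S (ι' → S)), q' * q' = q' ∧ q' * N' * q' = N' ∧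
      (F.mem (1 + N') → F.mem (1 + N)) ∧ X' 0 = ⊥ ∧ (∀ v, v ∈ X' r ↔ v ᵥ* q' = v) ∧
      Monotone X' ∧ (∀ i, ∀ v ∈ X' (i + 1), v ᵥ* N' ∈ X' i) ∧
      ∀ i : Fin r, ∃ g' : X' (i + 1) →ₗ[S] LinearMap.ker (f i), Function.Surjective g' ∧
        ∀ x, g' x = 0 ↔ (x : ι' → S) ∈ X' i := by
  classical
  choose x hx using fun (i : Fin r) (k : κ i) => hg i (f i (fun j => if k = j then 1 else 0))
  -- sums of the chosen generators
  have hsum : ∀ (i : Fin r) (u : κ i → S), g i (∑ k, u k • x i k) = f i u := by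
    intro i u
    rw [map_sum, LinearMap.pi_apply_eq_sum_univ (f i) u]
    exact Finset.sum_congr rfl fun k _ => by rw [map_smul, hx]
  let P : Matrix (Σ i : Fin r, κ i) ι S := Matrix.of fun a j => (x a.1 a.2 : ι → S) j
  have hP : ∀ w : (Σ i : Fin r, κ i) → S, w ᵥ* P = ∑ i, ∑ k, w ⟨i, k⟩ • (x i k : ι → S) := by
    intro w
    funext j
    rw [Finset.sum_apply]
    simp only [Finset.sum_apply, Pi.smul_apply, smul_eq_mul]
    rw [Matrix.vecMul, dotProduct, Fintype.sum_sigma]
    rfl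
  let Su : ℕ → Submodule S ((Σ i : Fin r, κ i) → S) := fun i =>
    { carrier := {w | ∀ a, i ≤ (a.1 : ℕ) → w a = 0}
      add_mem' := by
        intro v w hv hw a ha
        rw [Pi.add_apply, hv a ha, hw a ha, add_zero]
      zero_mem' := fun _ _ => rfl
      smul_mem' := by
        intro c v hv a ha
        rw [Pi.smul_apply, hv a ha, smul_zero] }
  have hSu : ∀ i w, w ∈ Su i ↔ ∀ a : (Σ i : Fin r, κ i), i ≤ (a.1 : ℕ) → w a = 0 :=
    fun _ _ => Iff.rfl
  -- embedding of one component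
  let em : ∀ i : Fin r, (κ i → S) → (Σ i : Fin r, κ i) → S := fun i u a =>
    (Function.update (fun (j : Fin r) (_ : κ j) => (0 : S)) i u) a.1 a.2
  have em_self : ∀ i u k, em i u ⟨i, k⟩ = u k := by
    intro i u k
    simp only [em, Function.update_self]
  have em_ne : ∀ (i : Fin r) (u : κ i → S) (j : Fin r) (k : κ j), j ≠ i → em i u ⟨j, k⟩ = 0 := by
    intro i u j k hj
    simp only [em, Function.update_of_ne hj]
  have em_P : ∀ i u, em i u ᵥ* P = ∑ k, u k • (x i k : ι → S) := by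
    intro i u
    rw [hP, Finset.sum_eq_single i]
    · exact Finset.sum_congr rfl fun k _ => by rw [em_self]
    · intro j _ hj
      exact Finset.sum_eq_zero fun k _ => by rw [em_ne i u j k hj, zero_smul]
    · intro h; exact absurd (Finset.mem_univ _) h
  have em_Su : ∀ (i : Fin r) u, em i u ∈ Su (i + 1) := by
    intro i u
    rw [hSu]
    rintro ⟨j, k⟩ hj
    apply em_ne
    rintro rfl
    simp only at hj
    omega
  -- the map is onto
  have hsurj : ∀ i, i ≤ r → ∀ y ∈ X i, ∃ w ∈ Su i, w ᵥ* P = y := by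
    intro i
    induction i with
    | zero =>
      intro _ y hy
      rw [h0, Submodule.mem_bot] at hy
      exact ⟨0, (Su 0).zero_mem, by rw [hy, Matrix.zero_vecMul]⟩
    | succ i ih =>
      intro hi y hy
      obtain ⟨u, hu⟩ := hf ⟨i, hi⟩ (g ⟨i, hi⟩ ⟨y, hy⟩)
      have h1 : g ⟨i, hi⟩ (⟨y, hy⟩ - ∑ k, u k • x ⟨i, hi⟩ k) = 0 := by
        rw [map_sub, hsum, hu, sub_self]
      rw [hgk] at h1
      obtain ⟨w, hw, hw'⟩ := ih (Nat.le_of_succ_le hi) _ h1
      refine ⟨w + em ⟨i, hi⟩ u, (Su (i + 1)).add_mem ?_ (em_Su ⟨i, hi⟩ u), ?_⟩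
      · rw [hSu] at hw ⊢
        intro a ha
        exact hw a (by omega)
      · rw [Matrix.add_vecMul, hw', em_P, Submodule.coe_sub, Submodule.coe_sum]
        simp only [Submodule.coe_smul]
        rw [sub_add_cancel]
  -- the nilpotent matrix on the free module
  have hMx : ∀ a : (Σ i : Fin r, κ i), ∃ w ∈ Su a.1, w ᵥ* P = (x a.1 a.2 : ι → S) ᵥ* N := by
    intro a
    exact hsurj a.1 a.1.2.le _ (hNX _ _ (x a.1 a.2).2)
  choose wM hwM hwM' using hMx
  let M : Matrix (Σ i : Fin r, κ i) (Σ i : Fin r, κ i) S := Matrix.of wM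
  have hMP : M * P = P * N := by
    funext a
    rw [Matrix.mul_apply_eq_vecMul, Matrix.mul_apply_eq_vecMul]
    exact hwM' a
  have hMt : ∀ a b, M a b ≠ 0 → ((b.1 : ℕ)) < (a.1 : ℕ) := by
    intro a b hab
    by_contra hle
    exact hab ((hSu _ _).1 (hwM a) b (not_lt.1 hle))
  -- the splitting
  have hqr : ∀ j, q j ∈ X r := fun j => by
    rw [hr, ← Matrix.mul_apply_eq_vecMul, hq]
  choose wS _ hwS' using fun j => hsurj r le_rfl _ (hqr j)
  let T0 : Matrix ι (Σ i : Fin r, κ i) S := Matrix.of wS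
  have hT0 : T0 * P = q := by
    funext j
    rw [Matrix.mul_apply_eq_vecMul]
    exact hwS' j
  obtain ⟨T, hTP, hqT⟩ : ∃ T : Matrix ι (Σ i : Fin r, κ i) S, T * P = q ∧ q * T = T :=
    ⟨q * T0, by rw [Matrix.mul_assoc, hT0, hq], by rw [← Matrix.mul_assoc, hq]⟩
  have hPq : P * q = P := by
    funext a
    rw [Matrix.mul_apply_eq_vecMul]
    exact (hr _).1 (hX (Nat.succ_le_of_lt a.1.2) (x a.1 a.2).2)
  let q' : Matrix (Σ i : Fin r, κ i) (Σ i : Fin r, κ i) S := 1 - P * T
  have hPT : P * T * (P * T) = P * T := by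
    rw [← Matrix.mul_assoc, Matrix.mul_assoc P T P, hTP, Matrix.mul_assoc, hqT]
  have hq' : q' * q' = q' := by
    simp only [q']
    rw [Matrix.mul_sub, Matrix.mul_one, Matrix.sub_mul, Matrix.one_mul, hPT, sub_self, sub_zero]
  have hq'P : q' * P = 0 := by
    simp only [q']
    rw [Matrix.sub_mul, Matrix.one_mul, Matrix.mul_assoc, hTP, hPq, sub_self]
  have h1q : 1 - q' = P * T := by simp only [q']; rw [sub_sub_cancel]
  have hq'M : q' * M * (1 - q') = 0 := by
    rw [h1q, ← Matrix.mul_assoc, Matrix.mul_assoc q' M P, hMP, ← Matrix.mul_assoc q' P N, hq'P,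
      Matrix.zero_mul, Matrix.zero_mul]
  have hvq : ∀ v : (Σ i : Fin r, κ i) → S, v ᵥ* P = 0 → v ᵥ* q' = v := by
    intro v hv
    simp only [q']
    rw [Matrix.vecMul_sub, Matrix.vecMul_one, ← Matrix.vecMul_vecMul, hv, Matrix.zero_vecMul,
      sub_zero]
  let X' : ℕ → Submodule S ((Σ i : Fin r, κ i) → S) := fun i => Su i ⊓ LinearMap.ker P.vecMulLinear
  have hX' : ∀ i w, w ∈ X' i ↔ w ∈ Su i ∧ w ᵥ* P = 0 := fun i w => Iff.rfl
  refine ⟨(Σ i : Fin r, κ i), inferInstance, inferInstance, q', q' * M * q', X', hq', ?_, ?_, ?_,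
    ?_, ?_, ?_, ?_⟩
  · calc q' * (q' * M * q') * q' = (q' * q') * M * (q' * q') := by simp only [Matrix.mul_assoc]
      _ = _ := by rw [hq']
  · intro h
    have h1 := F.split hq' hq'M (F.nil_tri M (fun a => (a.1 : ℕ)) hMt) h
    rw [h1q] at h1
    have h2 : P * T * M * (P * T) = P * (q * N * T) := by
      calc P * T * M * (P * T) = P * T * (M * P) * T := by simp only [Matrix.mul_assoc]
        _ = P * (T * P) * N * T := by rw [hMP]; simp only [Matrix.mul_assoc]
        _ = _ := by rw [hTP]; simp only [Matrix.mul_assoc]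
    rw [h2] at h1
    have h3 := F.swap h1
    rwa [Matrix.mul_assoc (q * N) T P, hTP, hN] at h3
  · rw [eq_bot_iff]
    intro w hw
    rw [Submodule.mem_bot]
    funext a
    exact (hSu _ _).1 ((hX' _ _).1 hw).1 a (Nat.zero_le _)
  · intro v
    rw [hX']
    constructor
    · rintro ⟨-, h⟩
      exact hvq v h
    · intro h
      refine ⟨fun a ha => absurd a.1.2 (not_lt.2 ha), ?_⟩
      rw [← h, Matrix.vecMul_vecMul, hq'P, Matrix.vecMul_zero]
  · intro i j hij w hw
    rw [hX'] at hw ⊢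
    exact ⟨fun a ha => hw.1 a (hij.trans ha), hw.2⟩
  · intro i v hv
    rw [hX'] at hv
    have h1 : v ᵥ* M ∈ X' i := by
      rw [hX']
      refine ⟨?_, ?_⟩
      · rw [hSu]
        intro b hb
        rw [Matrix.vecMul, dotProduct]
        apply Finset.sum_eq_zero
        intro a _
        by_cases hab : M a b = 0
        · rw [hab, mul_zero]
        · have h2 := hMt a b hab
          rw [(hSu _ _).1 hv.1 a (by omega), zero_mul]
      · rw [Matrix.vecMul_vecMul, hMP, ← Matrix.vecMul_vecMul, hv.2, Matrix.zero_vecMul]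
    have h2 : v ᵥ* (q' * M * q') = v ᵥ* M := by
      rw [← Matrix.vecMul_vecMul, ← Matrix.vecMul_vecMul, hvq v hv.2, hvq _ ((hX' _ _).1 h1).2]
    rw [h2]
    exact h1
  · intro i
    have hmem : ∀ w : X' (i + 1), (fun k => w.1 ⟨i, k⟩) ∈ LinearMap.ker (f i) := by
      rintro ⟨w, hw⟩
      rw [hX'] at hw
      rw [LinearMap.mem_ker, ← hsum, hgk, Submodule.coe_sum]
      simp only [Submodule.coe_smul]
      have h1 := hw.2
      rw [hP, ← Finset.add_sum_erase _ _ (Finset.mem_univ i)] at h1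
      have h2 := eq_neg_of_add_eq_zero_left h1
      rw [h2]
      apply (X i).neg_mem
      apply (X i).sum_mem
      intro j hj
      have hji : j ≠ i := (Finset.mem_erase.1 hj).1
      rcases lt_or_gt_of_ne hji with h3 | h3
      · apply (X i).sum_mem
        intro k _
        apply (X i).smul_mem
        exact hX (Nat.succ_le_of_lt h3) (x j k).2
      · have : ∑ k, w ⟨j, k⟩ • (x j k : ι → S) = 0 := by
          apply Finset.sum_eq_zero
          intro k _
          rw [(hSu _ _).1 hw.1 ⟨j, k⟩ (Nat.succ_le_of_lt h3), zero_smul]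
        rw [this]
        exact (X i).zero_mem
    let g' : X' (i + 1) →ₗ[S] LinearMap.ker (f i) :=
      { toFun := fun w => ⟨fun k => w.1 ⟨i, k⟩, hmem w⟩
        map_add' := fun _ _ => rfl
        map_smul' := fun _ _ => rfl }
    refine ⟨g', ?_, ?_⟩
    · rintro ⟨u, hu⟩
      rw [LinearMap.mem_ker, ← hsum, hgk, Submodule.coe_sum] at hu
      simp only [Submodule.coe_smul] at hu
      obtain ⟨w, hw, hw'⟩ := hsurj i i.2.le _ hu
      refine ⟨⟨em i u - w, ?_⟩, ?_⟩
      · rw [hX']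
        refine ⟨(Su (i + 1)).sub_mem (em_Su i u) ?_, ?_⟩
        · rw [hSu] at hw ⊢
          intro a ha
          exact hw a (by omega)
        · rw [Matrix.sub_vecMul, em_P, hw', sub_self]
      · apply Subtype.ext
        funext k
        change em i u ⟨i, k⟩ - w ⟨i, k⟩ = u k
        rw [em_self, (hSu _ _).1 hw ⟨i, k⟩ le_rfl, sub_zero]
    · rintro ⟨w, hw⟩
      have hw2 := (hX' _ _).1 hw
      constructor
      · intro h
        have h1 : ∀ k, w ⟨i, k⟩ = 0 := fun k => congrFun (congrArg Subtype.val h) k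
        change w ∈ X' i
        rw [hX']
        refine ⟨?_, hw2.2⟩
        rw [hSu]
        rintro ⟨j, k⟩ hj
        rcases Nat.lt_or_ge (i : ℕ) j with h3 | h3
        · exact (hSu _ _).1 hw2.1 ⟨j, k⟩ h3
        · have : j = i := Fin.ext (le_antisymm h3 hj)
          subst this
          exact h1 k
      · intro h
        have h1 : w ∈ X' i := h
        rw [hX'] at h1
        apply Subtype.ext
        funext k
        exact (hSu _ _).1 h1.1 ⟨i, k⟩ le_rfl

/-- unipotent matrices with filtrations by modules with finite free resolutions -/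
theorem nil_filt (F : KF S) : ∀ (d r : ℕ) (ι : Type) [Fintype ι] [DecidableEq ι]
    (q N : Matrix ι ι S) (X : ℕ → Submodule S (ι → S)), q * q = q → q * N * q = N → X 0 = ⊥ →
    (∀ v, v ∈ X r ↔ v ᵥ* q = v) → Monotone X → (∀ i, ∀ v ∈ X (i + 1), v ᵥ* N ∈ X i) →
    (∀ i : Fin r, ∃ (Q : Type) (_ : AddCommGroup Q) (_ : Module S Q) (g : X (i + 1) →ₗ[S] Q),
      Function.Surjective g ∧ (∀ x, g x = 0 ↔ (x : ι → S) ∈ X i) ∧ FR S d Q) →
    F.mem (1 + N) := by
  intro d
  induction d with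
  | zero =>
    intro r ι _ _ q N X hq hN h0 hr hX hNX hQ
    choose Q iQ1 iQ2 g hg hgk hFR using hQ
    have hFR' : ∀ i, ∃ (κ : Type) (_ : Fintype κ), Nonempty (Q i ≃ₗ[S] (κ → S)) := fun i => hFR i
    choose κ iκ e using hFR'
    classical
    obtain ⟨ι', _, _, q', N', X', h1, h2, h3, h4, h5, h6, h7, h8⟩ := nil_step F hq hN X h0 hr hX hNX
      κ Q g hgk hg (fun i => (e i).some.symm.toLinearMap) (fun i => (e i).some.symm.surjective)
    apply h3
    have h9 : ∀ i, i ≤ r → X' i = ⊥ := by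
      intro i
      induction i with
      | zero => intro _; exact h4
      | succ i ih =>
        intro hi
        obtain ⟨g', -, hg'⟩ := h8 ⟨i, hi⟩
        rw [eq_bot_iff]
        intro v hv
        have h10 : g' ⟨v, hv⟩ = 0 := by
          apply Subtype.ext
          have := LinearMap.mem_ker.1 (g' ⟨v, hv⟩).2
          exact (e ⟨i, hi⟩).some.symm.map_eq_zero_iff.1 this
        rw [hg'] at h10
        have h11 : v ∈ X' i := h10
        rwa [ih (Nat.le_of_succ_le hi)] at h11
    have h10 : q' = 0 := by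
      funext j
      have h11 : q' j ∈ X' r := by rw [h5, ← Matrix.mul_apply_eq_vecMul, h1]
      rw [h9 r le_rfl, Submodule.mem_bot] at h11
      exact h11
    rw [h10] at h2
    rw [← h2, Matrix.mul_zero, add_zero]
    exact F.one
  | succ d ih =>
    intro r ι _ _ q N X hq hN h0 hr hX hNX hQ
    choose Q iQ1 iQ2 g hg hgk hFR using hQ
    have hFR' : ∀ i, ∃ (κ : Type) (_ : Fintype κ) (f : (κ → S) →ₗ[S] Q i),
      Function.Surjective f ∧ FR S d (LinearMap.ker f) := fun i => hFR i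
    choose κ iκ f hf hk using hFR'
    classical
    obtain ⟨ι', _, _, q', N', X', h1, h2, h3, h4, h5, h6, h7, h8⟩ := nil_step F hq hN X h0 hr hX hNX
      κ Q g hgk hg f hf
    apply h3
    apply ih r ι' q' N' X' h1 h2 h4 h5 h6 h7
    intro i
    obtain ⟨g', hg1, hg2⟩ := h8 i
    exact ⟨_, _, _, g', hg1, hg2, hk i⟩

/-- over a noetherian ring whose finitely generated modules have finite free resolutions, unipotent
matrices belong to all families -/
theorem nil_mem (F : KF S) [IsNoetherianRing S]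
    (hS : ∀ (M : Type) [AddCommGroup M] [Module S M], Module.Finite S M → ∃ n, FR S n M)
    {ι : Type} [Fintype ι] [DecidableEq ι] (N : Matrix ι ι S) (r : ℕ) (hN : N ^ r = 0) :
    F.mem (1 + N) := by
  let X : ℕ → Submodule S (ι → S) := fun i => LinearMap.ker (N ^ i).vecMulLinear
  have hX : ∀ i v, v ∈ X i ↔ v ᵥ* N ^ i = 0 := fun _ _ => Iff.rfl
  have hmono : Monotone X := by
    intro i j hij v hv
    rw [hX] at hv ⊢
    obtain ⟨k, rfl⟩ := Nat.exists_eq_add_of_le hij
    rw [pow_add, ← Matrix.vecMul_vecMul, hv, Matrix.zero_vecMul]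
  have hQ : ∀ i : Fin r, ∃ n, FR S n ((X (i + 1)) ⧸ (X i).submoduleOf (X (i + 1))) := by
    intro i
    apply hS
    infer_instance
  choose n hn using hQ
  refine nil_filt F (Finset.univ.sup n) r ι 1 N X (Matrix.mul_one 1)
    (by rw [Matrix.one_mul, Matrix.mul_one]) ?_ ?_ hmono ?_ ?_
  · rw [eq_bot_iff]
    intro v hv
    rw [hX, pow_zero, Matrix.vecMul_one] at hv
    exact hv
  · intro v
    rw [hX, hN, Matrix.vecMul_zero, Matrix.vecMul_one]
    exact ⟨fun _ => rfl, fun _ => rfl⟩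
  · intro i v hv
    rw [hX] at hv ⊢
    rwa [Matrix.vecMul_vecMul, ← pow_succ']
  · intro i
    refine ⟨_, inferInstance, inferInstance, ((X i).submoduleOf (X (i + 1))).mkQ,
      Submodule.mkQ_surjective _, ?_, FR_mono (Finset.le_sup (Finset.mem_univ i)) (hn i)⟩
    intro x
    rw [Submodule.mkQ_apply, Submodule.Quotient.mk_eq_zero]
    exact Submodule.mem_comap

end Pool.Agent.K6.H28.K1
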