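import Pool.Agent.K6.H28.K1.Fit

set_option autoImplicit false
set_option linter.unusedSectionVars false

/-! # The semisimple part of linear matrices -/

namespace Pool.Agent.K6.H28.K1

open Matrix

variable {S : Type} [Ring S] (F : KF S) (D : Gd S)

/-- inverse of the semisimple part -/
theorem ss_inv {ι : Type} [Fintype ι] [DecidableEq ι] {a b c c' : Matrix ι ι S}
    (r2 : c * a + c' * b = 1) (r1 : a * c + b * c' = 1) (hf : c * a * (c * a) = c * a)
    (he : a * c * (a * c) = a * c) :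
    (a * (c * a) + b * (c' * b)) * (c * a * c + c' * b * c') = 1 ∧
    (c * a * c + c' * b * c') * (a * (c * a) + b * (c' * b)) = 1 ∧
    c * a * (c' * b) = 0 ∧ c' * b * (c * a) = 0 ∧ c' * b * (c' * b) = c' * b := by
  obtain ⟨f, hfd⟩ : ∃ f, f = c * a := ⟨_, rfl⟩
  obtain ⟨g, hgd⟩ : ∃ g, g = c' * b := ⟨_, rfl⟩
  obtain ⟨e, hed⟩ : ∃ e, e = a * c := ⟨_, rfl⟩
  obtain ⟨h, hhd⟩ : ∃ h, h = b * c' := ⟨_, rfl⟩
  simp only [← hfd, ← hgd, ← hed, ← hhd] at r2 r1 hf he ⊢
  have f1 : f = 1 - g := eq_sub_of_add_eq r2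
  have g1 : g = 1 - f := eq_sub_of_add_eq' r2
  have e1 : e = 1 - h := eq_sub_of_add_eq r1
  have h1 : h = 1 - e := eq_sub_of_add_eq' r1
  have fg : f * g = 0 := by rw [g1, Matrix.mul_sub, Matrix.mul_one, hf, sub_self]
  have gf : g * f = 0 := by rw [g1, Matrix.sub_mul, Matrix.one_mul, hf, sub_self]
  have gg : g * g = g := by
    nth_rewrite 2 [g1]
    rw [Matrix.mul_sub, Matrix.mul_one, gf, sub_zero]
  have hh : h * h = h := by
    have eh : e * h = 0 := by rw [h1, Matrix.mul_sub, Matrix.mul_one, he, sub_self]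
    nth_rewrite 1 [h1]
    rw [Matrix.sub_mul, Matrix.one_mul, eh, sub_zero]
  have af : a * f = e * a := by rw [hfd, hed, Matrix.mul_assoc]
  have bg : b * g = h * b := by rw [hgd, hhd, Matrix.mul_assoc]
  have ce : c * e = f * c := by rw [hfd, hed, Matrix.mul_assoc]
  have ch' : c' * h = g * c' := by rw [hgd, hhd, Matrix.mul_assoc]
  have ch : c * h = g * c := by
    rw [h1, Matrix.mul_sub, Matrix.mul_one, ce, g1, Matrix.sub_mul, Matrix.one_mul]
  have ce' : c' * e = f * c' := by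
    rw [e1, Matrix.mul_sub, Matrix.mul_one, ch', f1, Matrix.sub_mul, Matrix.one_mul]
  have cbg : c * b * g = g * (c * b) := by
    rw [Matrix.mul_assoc, bg, ← Matrix.mul_assoc, ch, Matrix.mul_assoc]
  have cbg' : c' * a * f = f * (c' * a) := by
    rw [Matrix.mul_assoc, af, ← Matrix.mul_assoc, ce', Matrix.mul_assoc]
  refine ⟨?_, ?_, fg, gf, gg⟩
  · rw [Matrix.add_mul, Matrix.mul_add, Matrix.mul_add]
    have x1 : a * f * (f * c) = e := by
      rw [← Matrix.mul_assoc, Matrix.mul_assoc a f f, hf, af, Matrix.mul_assoc, ← hed, he]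
    have x2 : a * f * (g * c') = 0 := by
      rw [← Matrix.mul_assoc, Matrix.mul_assoc a f g, fg, Matrix.mul_zero, Matrix.zero_mul]
    have x3 : b * g * (f * c) = 0 := by
      rw [← Matrix.mul_assoc, Matrix.mul_assoc b g f, gf, Matrix.mul_zero, Matrix.zero_mul]
    have x4 : b * g * (g * c') = h := by
      rw [← Matrix.mul_assoc, Matrix.mul_assoc b g g, gg, bg, Matrix.mul_assoc, ← hhd, hh]
    rw [x1, x2, x3, x4, add_zero, zero_add, r1]
  · rw [Matrix.add_mul, Matrix.mul_add, Matrix.mul_add]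
    have x1 : f * c * (a * f) = f := by
      rw [← Matrix.mul_assoc, Matrix.mul_assoc f c a, ← hfd, hf, hf]
    have x2 : f * c * (b * g) = 0 := by
      rw [← Matrix.mul_assoc, Matrix.mul_assoc f c b, Matrix.mul_assoc f, cbg, ← Matrix.mul_assoc,
        fg, Matrix.zero_mul]
    have x3 : g * c' * (a * f) = 0 := by
      rw [← Matrix.mul_assoc, Matrix.mul_assoc g c' a, Matrix.mul_assoc g, cbg', ← Matrix.mul_assoc,
        gf, Matrix.zero_mul]
    have x4 : g * c' * (b * g) = g := by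
      rw [← Matrix.mul_assoc, Matrix.mul_assoc g c' b, ← hgd, gg, gg]
    rw [x1, x2, x3, x4, add_zero, zero_add, r2]

theorem hm_fromRows {a : ℤ} {ι ι' κ : Type} {A : Matrix ι κ S} {B : Matrix ι' κ S} (hA : D.Hm a A)
    (hB : D.Hm a B) : D.Hm a (fromRows A B) := by
  ext1 x y
  rcases x with x | x
  · exact congrFun (congrFun hA x) y
  · exact congrFun (congrFun hB x) y

theorem hm_fromCols {a : ℤ} {ι κ κ' : Type} {A : Matrix ι κ S} {B : Matrix ι κ' S} (hA : D.Hm a A)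
    (hB : D.Hm a B) : D.Hm a (fromCols A B) := by
  ext1 x y
  rcases y with y | y
  · exact congrFun (congrFun hA x) y
  · exact congrFun (congrFun hB x) y

theorem hm_scalar {a : ℤ} {T : S} (h1 : D.hp a T = T) (ι : Type) [DecidableEq ι] :
    D.Hm a (Matrix.diagonal fun _ : ι => T) := by
  ext1 x y
  change D.hp a _ = _
  by_cases hxy : x = y
  · subst hxy; rw [Matrix.diagonal_apply_eq, h1]
  · rw [Matrix.diagonal_apply_ne _ hxy, map_zero]

theorem scalar_mul {T T' : S} (hT : T * T' = 1) (ι : Type) [Fintype ι] [DecidableEq ι] :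
    (Matrix.diagonal fun _ : ι => T) * (Matrix.diagonal fun _ : ι => T') = 1 := by
  rw [Matrix.diagonal_mul_diagonal]
  simp only [hT]
  exact Matrix.diagonal_one

theorem core (T T' : S) (hT : T' * T = 1) (hT' : T * T' = 1) (h1 : D.hp 1 T = T)
    (h2 : D.hp (-1) T' = T')
    (hTF : ∀ (ι : Type) [Fintype ι] [DecidableEq ι], F.mem (Matrix.diagonal fun _ : ι => T))
    (hF0 : ∀ (ι : Type) [Fintype ι] [DecidableEq ι] (A A' : Matrix ι ι S), D.Hm 0 A → D.Hm 0 A' →
      A * A' = 1 → A' * A = 1 → F.mem A)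
    {ι β β' : Type} [Fintype ι] [DecidableEq ι] [Fintype β] [DecidableEq β] [Fintype β']
    [DecidableEq β'] {W W' : Matrix ι ι S} (hWW : W * W' = 1) (hWW' : W' * W = 1)
    {P1 : Matrix ι β S} {P2 : Matrix ι β' S} {Q1 : Matrix β ι S} {Q2 : Matrix β' ι S}
    (p1 : D.Hm 0 P1) (p2 : D.Hm 0 P2) (q1 : D.Hm 0 Q1) (q2 : D.Hm 0 Q2)
    (hs : P1 * Q1 + P2 * Q2 = 1) (h11 : Q1 * P1 = 1) (h22 : Q2 * P2 = 1) (h12 : Q1 * P2 = 0)
    (h21 : Q2 * P1 = 0) (w1 : D.Hm 0 (W * P1)) (w2 : D.Hm 1 (W * P2)) (w3 : D.Hm 0 (Q1 * W'))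
    (w4 : D.Hm (-1) (Q2 * W')) : F.mem W := by
  let Z := fromCols P1 P2
  let Z' := fromRows Q1 Q2
  have hZ : Z * Z' = 1 := by
    simp only [Z, Z']
    rw [fromCols_mul_fromRows, hs]
  have hZ' : Z' * Z = 1 := by
    simp only [Z, Z']
    rw [fromRows_mul_fromCols, h11, h12, h21, h22, fromBlocks_one]
  obtain ⟨τ, hτ⟩ : ∃ τ : Matrix β' β' S, τ = Matrix.diagonal fun _ : β' => T := ⟨_, rfl⟩
  obtain ⟨τ', hτ'⟩ : ∃ τ : Matrix β' β' S, τ = Matrix.diagonal fun _ : β' => T' := ⟨_, rfl⟩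
  have ht1 : D.Hm 1 τ := by rw [hτ]; exact hm_scalar D h1 β'
  have ht2 : D.Hm (-1) τ' := by rw [hτ']; exact hm_scalar D h2 β'
  have ht3 : τ * τ' = 1 := by rw [hτ, hτ']; exact scalar_mul hT' β'
  have ht4 : τ' * τ = 1 := by rw [hτ, hτ']; exact scalar_mul hT β'
  have htF : F.mem τ := by rw [hτ]; exact hTF β'
  let E : Matrix (β ⊕ β') (β ⊕ β') S := fromBlocks 1 0 0 τ
  let E' : Matrix (β ⊕ β') (β ⊕ β') S := fromBlocks 1 0 0 τ'
  have hE : E * E' = 1 := by
    simp only [E, E']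
    rw [fromBlocks_multiply]
    simp [ht3]
  have hE' : E' * E = 1 := by
    simp only [E, E']
    rw [fromBlocks_multiply]
    simp [ht4]
  have hEF : F.mem E := F.right_iff.2 htF
  have hZe : D.Hm 0 (W * Z * E') := by
    have : W * Z * E' = fromCols (W * P1) (W * P2 * τ') := by
      simp only [Z, E']
      rw [mul_fromCols, fromCols_mul_fromBlocks]
      simp
    rw [this]
    exact hm_fromCols D w1 (D.hm_congr (by norm_num) (D.hm_mul w2 ht2))
  have hZi : D.Hm 0 (E * Z' * W') := by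
    have : E * Z' * W' = fromRows (Q1 * W') (τ * (Q2 * W')) := by
      simp only [Z', E]
      rw [fromBlocks_mul_fromRows, fromRows_mul]
      simp [Matrix.mul_assoc]
    rw [this]
    exact hm_fromRows D w3 (D.hm_congr (by norm_num) (D.hm_mul ht1 w4))
  have z1 : D.Hm 0 Z := hm_fromCols D p1 p2
  have z2 : D.Hm 0 Z' := hm_fromRows D q1 q2
  have m1 : F.mem (W * Z * E' * Z') := by
    apply hF0 ι _ (Z * (E * Z' * W'))
    · exact D.hm_congr (by norm_num) (D.hm_mul hZe z2)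
    · exact D.hm_congr (by norm_num) (D.hm_mul z1 hZi)
    · calc W * Z * E' * Z' * (Z * (E * Z' * W'))
          = W * Z * E' * (Z' * Z) * (E * Z' * W') := by simp only [Matrix.mul_assoc]
        _ = W * Z * (E' * E) * Z' * W' := by rw [hZ', Matrix.mul_one]; simp only [Matrix.mul_assoc]
        _ = W * (Z * Z') * W' := by rw [hE', Matrix.mul_one]; simp only [Matrix.mul_assoc]
        _ = 1 := by rw [hZ, Matrix.mul_one, hWW]
    · calc Z * (E * Z' * W') * (W * Z * E' * Z')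
          = Z * E * Z' * (W' * W) * (Z * E' * Z') := by simp only [Matrix.mul_assoc]
        _ = Z * E * (Z' * Z) * E' * Z' := by rw [hWW', Matrix.mul_one]; simp only [Matrix.mul_assoc]
        _ = Z * (E * E') * Z' := by rw [hZ', Matrix.mul_one]; simp only [Matrix.mul_assoc]
        _ = 1 := by rw [hE, Matrix.mul_one, hZ]
  have m2 : F.mem (Z * E * Z') := F.conj hZ hZ' hEF
  have m3 := F.mul m1 m2
  have m4 : W * Z * E' * Z' * (Z * E * Z') = W := by
    calc W * Z * E' * Z' * (Z * E * Z') = W * Z * E' * (Z' * Z) * (E * Z') := by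
          simp only [Matrix.mul_assoc]
      _ = W * Z * (E' * E) * Z' := by rw [hZ', Matrix.mul_one]; simp only [Matrix.mul_assoc]
      _ = W * (Z * Z') := by rw [hE', Matrix.mul_one]; simp only [Matrix.mul_assoc]
      _ = W := by rw [hZ, Matrix.mul_one]
  rwa [m4] at m3

/-- stably free projective modules of degree zero -/
def KH : Prop := ∀ (ι : Type) [Fintype ι] [DecidableEq ι] (f : Matrix ι ι S), D.Hm 0 f → f * f = f →
  ∃ (α β : Type) (_ : Fintype α) (_ : DecidableEq α) (_ : Fintype β) (_ : DecidableEq β)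
    (X : Matrix (ι ⊕ α) β S) (Y : Matrix β (ι ⊕ α) S), D.Hm 0 X ∧ D.Hm 0 Y ∧
    X * Y = fromBlocks f 0 0 1 ∧ Y * X = 1

theorem wh_of (hK : KH D) (T T' : S) (hT : T' * T = 1) (hT' : T * T' = 1) (h1 : D.hp 1 T = T)
    (h2 : D.hp (-1) T' = T')
    (hTF : ∀ (ι : Type) [Fintype ι] [DecidableEq ι], F.mem (Matrix.diagonal fun _ : ι => T))
    (hF0 : ∀ (ι : Type) [Fintype ι] [DecidableEq ι] (A A' : Matrix ι ι S), D.Hm 0 A → D.Hm 0 A' →
      A * A' = 1 → A' * A = 1 → F.mem A) : WH F D := by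
  intro ι _ _ a b c c' ha hb hc hc' r2 r1 hf he
  obtain ⟨s1, s2, fg, gf, gg⟩ := ss_inv r2 r1 hf he
  have hff : D.Hm 0 (c * a) := D.hm_congr (by norm_num) (D.hm_mul hc ha)
  have hgg : D.Hm 0 (c' * b) := D.hm_congr (by norm_num) (D.hm_mul hc' hb)
  obtain ⟨α, β, _, _, _, _, X, Y, hX, hY, hXY, hYX⟩ := hK ι _ hff hf
  obtain ⟨α', β', _, _, _, _, X', Y', hX', hY', hXY', hYX'⟩ := hK ι _ hgg gg
  generalize hfd : c * a = f at *
  generalize hgd : c' * b = g at *
  -- rows and columns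
  obtain ⟨X1, X2, rfl⟩ : ∃ X1 X2, X = fromRows X1 X2 := ⟨_, _, (fromRows_toRows X).symm⟩
  obtain ⟨Y1, Y2, rfl⟩ : ∃ Y1 Y2, Y = fromCols Y1 Y2 := ⟨_, _, (fromCols_toCols Y).symm⟩
  obtain ⟨X1', X2', rfl⟩ : ∃ X1 X2, X' = fromRows X1 X2 := ⟨_, _, (fromRows_toRows X').symm⟩
  obtain ⟨Y1', Y2', rfl⟩ : ∃ Y1 Y2, Y' = fromCols Y1 Y2 := ⟨_, _, (fromCols_toCols Y').symm⟩
  have rows : ∀ {ι α β : Type} {X1 : Matrix ι β S} {X2 : Matrix α β S},
      D.Hm 0 (fromRows X1 X2) → D.Hm 0 X1 ∧ D.Hm 0 X2 := by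
    intro ι α β X1 X2 h
    refine ⟨?_, ?_⟩
    · ext1 x y; exact congrFun (congrFun h (Sum.inl x)) y
    · ext1 x y; exact congrFun (congrFun h (Sum.inr x)) y
  have cols : ∀ {ι α β : Type} {X1 : Matrix β ι S} {X2 : Matrix β α S},
      D.Hm 0 (fromCols X1 X2) → D.Hm 0 X1 ∧ D.Hm 0 X2 := by
    intro ι α β X1 X2 h
    refine ⟨?_, ?_⟩
    · ext1 x y; exact congrFun (congrFun h x) (Sum.inl y)
    · ext1 x y; exact congrFun (congrFun h x) (Sum.inr y)
  obtain ⟨x1, x2⟩ := rows hX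
  obtain ⟨x1', x2'⟩ := rows hX'
  obtain ⟨y1, y2⟩ := cols hY
  obtain ⟨y1', y2'⟩ := cols hY'
  have key : ∀ {α β : Type} [Fintype α] [DecidableEq α] [Fintype β] [DecidableEq β]
      {f : Matrix ι ι S} {X1 : Matrix ι β S}
      {X2 : Matrix α β S} {Y1 : Matrix β ι S} {Y2 : Matrix β α S},
      fromRows X1 X2 * fromCols Y1 Y2 = fromBlocks f 0 0 1 → fromCols Y1 Y2 * fromRows X1 X2 = 1 →
      f * X1 = X1 ∧ Y1 * f = Y1 := by
    intro α β _ _ _ _ f X1 X2 Y1 Y2 h3 h4
    constructor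
    · have h5 : fromRows X1 X2 * fromCols Y1 Y2 * fromRows X1 X2 = fromRows X1 X2 := by
        rw [Matrix.mul_assoc, h4, Matrix.mul_one]
      rw [h3, fromBlocks_mul_fromRows, fromRows_ext_iff] at h5
      simpa using h5.1
    · have h5 : fromCols Y1 Y2 * (fromRows X1 X2 * fromCols Y1 Y2) = fromCols Y1 Y2 := by
        rw [← Matrix.mul_assoc, h4, Matrix.one_mul]
      rw [h3, fromCols_mul_fromBlocks, fromCols_ext_iff] at h5
      simpa using h5.1
  obtain ⟨k1, k2⟩ := key hXY hYX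
  obtain ⟨k1', k2'⟩ := key hXY' hYX'
  rw [fromRows_mul_fromCols, fromBlocks_inj] at hXY hXY'
  rw [fromCols_mul_fromRows] at hYX hYX'
  obtain ⟨W, hW⟩ : ∃ W, W = a * f + b * g := ⟨_, rfl⟩
  obtain ⟨W', hW'⟩ : ∃ W', W' = f * c + g * c' := ⟨_, rfl⟩
  rw [← hW, ← hW'] at s1 s2
  rw [← hW]
  have Wf : W * f = a * f := by
    rw [hW, Matrix.add_mul, Matrix.mul_assoc, hf, Matrix.mul_assoc, gf, Matrix.mul_zero, add_zero]
  have Wg : W * g = b * g := by
    rw [hW, Matrix.add_mul, Matrix.mul_assoc, fg, Matrix.mul_zero, zero_add, Matrix.mul_assoc, gg]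
  have fW : f * W' = f * c := by
    rw [hW', Matrix.mul_add, ← Matrix.mul_assoc, hf, ← Matrix.mul_assoc, fg, Matrix.zero_mul,
      add_zero]
  have gW : g * W' = g * c' := by
    rw [hW', Matrix.mul_add, ← Matrix.mul_assoc, gf, Matrix.zero_mul, zero_add, ← Matrix.mul_assoc,
      gg]
  obtain ⟨τ, hτ⟩ : ∃ τ : Matrix α' α' S, τ = Matrix.diagonal fun _ : α' => T := ⟨_, rfl⟩
  obtain ⟨τ', hτ'⟩ : ∃ τ : Matrix α' α' S, τ = Matrix.diagonal fun _ : α' => T' := ⟨_, rfl⟩
  have ht1 : D.Hm 1 τ := by rw [hτ]; exact hm_scalar D h1 α'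
  have ht2 : D.Hm (-1) τ' := by rw [hτ']; exact hm_scalar D h2 α'
  have ht3 : τ * τ' = 1 := by rw [hτ, hτ']; exact scalar_mul hT' α'
  have ht4 : τ' * τ = 1 := by rw [hτ, hτ']; exact scalar_mul hT α'
  have htF : F.mem τ := by rw [hτ]; exact hTF α'
  have main : F.mem (fromBlocks (fromBlocks W 0 0 (1 : Matrix α α S)) 0 0 τ) := by
    apply core F D T T' hT hT' h1 h2 hTF hF0 (β := β) (β' := β')
      (W' := fromBlocks (fromBlocks W' 0 0 (1 : Matrix α α S)) 0 0 τ')
      (P1 := fromRows (fromRows X1 X2) 0) (P2 := fromRows (fromRows X1' 0) X2')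
      (Q1 := fromCols (fromCols Y1 Y2) 0) (Q2 := fromCols (fromCols Y1' 0) Y2')
    · rw [fromBlocks_multiply, fromBlocks_multiply]
      simp [s1, ht3]
    · rw [fromBlocks_multiply, fromBlocks_multiply]
      simp [s2, ht4]
    · exact hm_fromRows D (hm_fromRows D x1 x2) (D.hm_zero 0)
    · exact hm_fromRows D (hm_fromRows D x1' (D.hm_zero 0)) x2'
    · exact hm_fromCols D (hm_fromCols D y1 y2) (D.hm_zero 0)
    · exact hm_fromCols D (hm_fromCols D y1' (D.hm_zero 0)) y2'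
    · rw [fromRows_mul_fromCols, fromRows_mul_fromCols, fromRows_mul_fromCols,
        fromRows_mul_fromCols, hXY.1, hXY.2.1, hXY.2.2.1, hXY.2.2.2, hXY'.1, hXY'.2.2.2]
      have e1 : fromRows X1' (0 : Matrix α β' S) * Y2' = 0 := by
        rw [fromRows_mul, hXY'.2.1, Matrix.zero_mul, fromRows_zero]
      have e2 : X2' * fromCols Y1' (0 : Matrix β' α S) = 0 := by
        rw [mul_fromCols, hXY'.2.2.1, Matrix.mul_zero, fromCols_zero]
      rw [e1, e2]
      simp only [Matrix.zero_mul, Matrix.mul_zero, fromBlocks_add, add_zero, zero_add, r2]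
      rw [fromBlocks_one, fromBlocks_one]
    · rw [fromCols_mul_fromRows, fromCols_mul_fromRows, hYX, Matrix.zero_mul, add_zero]
    · rw [fromCols_mul_fromRows, fromCols_mul_fromRows, Matrix.zero_mul, add_zero, hYX']
    · rw [fromCols_mul_fromRows, fromCols_mul_fromRows, Matrix.zero_mul, add_zero, Matrix.mul_zero,
        add_zero, ← k2, ← k1', Matrix.mul_assoc Y1 f, ← Matrix.mul_assoc f g, fg, Matrix.zero_mul,
        Matrix.mul_zero]
    · rw [fromCols_mul_fromRows, fromCols_mul_fromRows, Matrix.zero_mul, add_zero, Matrix.mul_zero,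
        add_zero, ← k2', ← k1, Matrix.mul_assoc Y1' g, ← Matrix.mul_assoc g f, gf, Matrix.zero_mul,
        Matrix.mul_zero]
    · rw [fromBlocks_mul_fromRows, fromBlocks_mul_fromRows]
      simp only [Matrix.zero_mul, Matrix.mul_zero, add_zero, zero_add, Matrix.one_mul]
      refine hm_fromRows D (hm_fromRows D ?_ x2) (D.hm_zero 0)
      rw [← k1, ← Matrix.mul_assoc, Wf, Matrix.mul_assoc, k1]
      exact D.hm_congr (by norm_num) (D.hm_mul ha x1)
    · rw [fromBlocks_mul_fromRows, fromBlocks_mul_fromRows]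
      simp only [Matrix.zero_mul, Matrix.mul_zero, add_zero, zero_add, Matrix.one_mul]
      refine hm_fromRows D (hm_fromRows D ?_ (D.hm_zero 1)) ?_
      · rw [← k1', ← Matrix.mul_assoc, Wg, Matrix.mul_assoc, k1']
        exact D.hm_congr (by norm_num) (D.hm_mul hb x1')
      · exact D.hm_congr (by norm_num) (D.hm_mul ht1 x2')
    · rw [fromCols_mul_fromBlocks, fromCols_mul_fromBlocks]
      simp only [Matrix.zero_mul, Matrix.mul_zero, add_zero, zero_add, Matrix.mul_one]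
      refine hm_fromCols D (hm_fromCols D ?_ y2) (D.hm_zero 0)
      rw [← k2, Matrix.mul_assoc, fW, ← Matrix.mul_assoc, k2]
      exact D.hm_congr (by norm_num) (D.hm_mul y1 hc)
    · rw [fromCols_mul_fromBlocks, fromCols_mul_fromBlocks]
      simp only [Matrix.zero_mul, Matrix.mul_zero, add_zero, zero_add, Matrix.mul_one]
      refine hm_fromCols D (hm_fromCols D ?_ (D.hm_zero (-1))) ?_
      · rw [← k2', Matrix.mul_assoc, gW, ← Matrix.mul_assoc, k2']
        exact D.hm_congr (by norm_num) (D.hm_mul y1' hc')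
      · exact D.hm_congr (by norm_num) (D.hm_mul y2' ht2)
  have e3 : (fromBlocks (fromBlocks W 0 0 (1 : Matrix α α S)) 0 0 τ : Matrix _ _ S)
      = fromBlocks (fromBlocks W 0 0 (1 : Matrix α α S)) 0 0 1 * fromBlocks 1 0 0 τ := by
    rw [fromBlocks_multiply]
    simp
  rw [e3] at main
  exact F.unstab (F.unstab (F.cancel_right (F.right_iff.2 htF) main))

end Pool.Agent.K6.H28.K1
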