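import Pool.Agent.K6.H28.K1.Nil
import Pool.Agent.K6.H28.K1.Cl
import Pool.Agent.K6.H28.K1.Wp
import Pool.Agent.K6.H28.K1.Euc
import Pool.Agent.K6.H28.GR.Reg
import Pool.Agent.K6.H28.GR.Row
import Pool.Agent.K6.H28.SF.Nilp
import Pool.Agent.K6.H28.GR.NilInd

set_option autoImplicit false
set_option linter.unusedSectionVars false

/-! # Invertible matrices over group rings of poly-infinite-cyclic groups -/

namespace Pool.Agent.K6.H28.K1

open Matrix Pool.Agent.K6.H28.SF Pool.Agent.K6.H28.GR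

/-- diagonal matrices whose entries are products of a unit of the ring and a group element -/
def IsUD {Λ G ι : Type} [Ring Λ] [Group G] [DecidableEq ι]
    (A : Matrix ι ι (MonoidAlgebra Λ G)) : Prop :=
  ∃ (g : ι → G) (u : ι → Λˣ), A = Matrix.diagonal fun i => MonoidAlgebra.single (g i) (u i : Λ)

/-- the trivial invertible matrices over a group ring -/
def TrG (Λ G : Type) [Ring Λ] [Group G] : Tr (MonoidAlgebra Λ G) where
  mem := fun A => IsUD A
  inv := by
    rintro ι _ _ A ⟨g, u, rfl⟩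
    refine ⟨Matrix.diagonal fun i => MonoidAlgebra.single (g i)⁻¹ (((u i)⁻¹ : Λˣ) : Λ), ?_, ?_,
        ⟨fun i => (g i)⁻¹, fun i => (u i)⁻¹, rfl⟩⟩
    · rw [Matrix.diagonal_mul_diagonal, ← Matrix.diagonal_one]
      congr 1
      funext i
      rw [MonoidAlgebra.single_mul_single, mul_inv_cancel, Units.mul_inv]
      rfl
    · rw [Matrix.diagonal_mul_diagonal, ← Matrix.diagonal_one]
      congr 1
      funext i
      rw [MonoidAlgebra.single_mul_single, inv_mul_cancel, Units.inv_mul]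
      rfl
  reindex := by
    rintro ι κ _ _ _ _ A e ⟨g, u, rfl⟩
    refine ⟨g ∘ e, u ∘ e, ?_⟩
    rw [Matrix.submatrix_diagonal_equiv]
    rfl
  stab := by
    rintro ι κ _ _ _ _ A ⟨g, u, rfl⟩
    refine ⟨Sum.elim g fun _ => 1, Sum.elim u fun _ => 1, ?_⟩
    ext1 x y
    rcases x with x | x <;> rcases y with y | y
    · simp only [fromBlocks_apply₁₁, Matrix.diagonal_apply, Sum.inl.injEq, Sum.elim_inl]
    · simp
    · simp
    · simp only [fromBlocks_apply₂₂, Matrix.diagonal_apply, Sum.inr.injEq, Sum.elim_inr,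
          Matrix.one_apply]
      rfl

/-- a group homomorphism maps trivial matrices to trivial matrices -/
theorem TrG_map {Λ G H : Type} [Ring Λ] [Group G] [Group H] (φ : G →* H) {ι : Type} [Fintype ι]
    [DecidableEq ι] {A : Matrix ι ι (MonoidAlgebra Λ G)} (h : (TrG Λ G).mem A) :
    (TrG Λ H).mem (A.map (GR.gr Λ φ)) := by
  obtain ⟨g, u, rfl⟩ := h
  refine ⟨φ ∘ g, u, ?_⟩
  rw [Matrix.diagonal_map (map_zero _)]
  congr 1
  funext i
  exact MonoidAlgebra.mapDomain_single

theorem sf_matrix {L : Type} [Ring L] (hL : GR.Reg L) {ι : Type} [Fintype ι] [DecidableEq ι]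
    (f : Matrix ι ι L) (hf : f * f = f) :
    ∃ (α β : Type) (_ : Fintype α) (_ : DecidableEq α) (_ : Fintype β) (_ : DecidableEq β)
      (X : Matrix (ι ⊕ α) β L) (Y : Matrix β (ι ⊕ α) L),
      X * Y = fromBlocks f 0 0 1 ∧ Y * X = 1 := by
  classical
  have hP : Module.Projective L (rowM f) := by
    refine Module.Projective.of_split (rowM f).subtype f.vecMulLinear.rangeRestrict ?_
    ext1 v
    exact Subtype.ext ((mem_rowM hf v).1 v.2)
  have := hL.1
  obtain ⟨n, hn⟩ := hL.2 (rowM f) inferInstance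
  obtain ⟨α, β, i1, i2, ⟨e⟩⟩ := stablyFree_of_FR n (rowM f) hP hn
  obtain ⟨e1⟩ := rowM_one (L := L) (ι := α)
  obtain ⟨e2⟩ := rowM_one (L := L) (ι := β)
  obtain ⟨e3⟩ := rowM_blocks f (1 : Matrix α α L)
  have h1 : (1 : Matrix α α L) * 1 = 1 := Matrix.mul_one 1
  have h2 : (1 : Matrix β β L) * 1 = 1 := Matrix.mul_one 1
  obtain ⟨U, V, h3, h4⟩ := of_rowM_equiv (fromBlocks f 0 0 1) (1 : Matrix β β L)
    (blocks_idem hf h1) h2
    (e3.symm.trans (((LinearEquiv.refl L _).prodCongr e1.symm).trans (e.trans e2)))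
  exact ⟨α, β, i1, inferInstance, i2, inferInstance, U, V, h3, h4⟩

section step

variable {Λ : Type} [Ring Λ] {G : Type} [Group G] {d : G →* Multiplicative ℤ} {t : G}

theorem map_incl_inj {ι κ : Type} {A B : Matrix ι κ (MonoidAlgebra Λ d.ker)}
    (h : A.map (incl d) = B.map (incl d)) : A = B := by
  ext1 x y
  exact incl_inj (congrFun (congrFun h x) y)

theorem kt_step (ht : GR.dg d t = 1) (hR : GR.Reg (MonoidAlgebra Λ d.ker))
    (ih : ∀ (ι : Type) [Fintype ι] [DecidableEq ι] (A : Matrix ι ι (MonoidAlgebra Λ d.ker)),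
      IsUnit A → (KT (TrG Λ d.ker)).mem A)
    (ι : Type) [Fintype ι] [DecidableEq ι] (A : Matrix ι ι (MonoidAlgebra Λ G)) (hA : IsUnit A) :
    (KT (TrG Λ G)).mem A := by
  have hS : GR.Reg (MonoidAlgebra Λ G) := Reg_step ht hR
  have := hS.1
  have hTi : GR.dg d t⁻¹ = -1 := by rw [GR.dg_inv, ht]
  have hTF : ∀ (ι : Type) [Fintype ι] [DecidableEq ι], (KT (TrG Λ G)).mem
      (Matrix.diagonal fun _ : ι => (MonoidAlgebra.single t 1 : MonoidAlgebra Λ G)) :=
    fun ι _ _ => KT_of_triv ⟨fun _ => t, fun _ => 1, rfl⟩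
  have h1 : (gdg (Λ := Λ) ht).hp 1 (MonoidAlgebra.single t 1) = MonoidAlgebra.single t 1 := by
    change hpg Λ d t 1 _ = _
    rw [hpg_single ht, if_pos ht]
  have h2 : (gdg (Λ := Λ) ht).hp (-1) (MonoidAlgebra.single t⁻¹ 1)
      = MonoidAlgebra.single t⁻¹ 1 := by
    change hpg Λ d t (-1) _ = _
    rw [hpg_single ht, if_pos hTi]
  have hT : (MonoidAlgebra.single t⁻¹ 1 : MonoidAlgebra Λ G) * MonoidAlgebra.single t 1 = 1 := by
    rw [MonoidAlgebra.single_mul_single, inv_mul_cancel, mul_one]; rfl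
  have hT' : (MonoidAlgebra.single t 1 : MonoidAlgebra Λ G) * MonoidAlgebra.single t⁻¹ 1 = 1 := by
    rw [MonoidAlgebra.single_mul_single, mul_inv_cancel, mul_one]; rfl
  refine all_mem (KT (TrG Λ G)) (gdg ht) ?_ ?_ (MonoidAlgebra.single t 1)
    (MonoidAlgebra.single t⁻¹ 1) hT h1 h2 hTF ι A hA
  · intro ι _ _ N r hN
    exact nil_mem _ hS.2 N r hN
  · refine wh_of (KT (TrG Λ G)) (gdg ht) ?_ (MonoidAlgebra.single t 1)
      (MonoidAlgebra.single t⁻¹ 1) hT hT' h1 h2 hTF ?_
    · intro ι _ _ f hf hff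
      obtain ⟨f0, rfl⟩ := exists_incl ht hf
      have h3 : f0 * f0 = f0 := by
        apply map_incl_inj
        rw [Matrix.map_mul, hff]
      obtain ⟨α, β, _, _, _, _, X, Y, h4, h5⟩ := sf_matrix hR f0 h3
      refine ⟨α, β, inferInstance, inferInstance, inferInstance, inferInstance, X.map (incl d),
        Y.map (incl d), hm_incl ht X, hm_incl ht Y, ?_, ?_⟩
      · rw [← Matrix.map_mul, h4, fromBlocks_map, Matrix.map_one _ (map_zero _) (map_one _),
          Matrix.map_zero _ (map_zero _), Matrix.map_zero _ (map_zero _)]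
      · rw [← Matrix.map_mul, h5, Matrix.map_one _ (map_zero _) (map_one _)]
    · intro ι _ _ A A' hA hA' h3 h4
      obtain ⟨A0, rfl⟩ := exists_incl ht hA
      obtain ⟨A0', rfl⟩ := exists_incl ht hA'
      have h5 : A0 * A0' = 1 := by
        apply map_incl_inj
        rw [Matrix.map_mul, h3, Matrix.map_one _ (map_zero _) (map_one _)]
      have h6 : A0' * A0 = 1 := by
        apply map_incl_inj
        rw [Matrix.map_mul, h4, Matrix.map_one _ (map_zero _) (map_one _)]
      exact KT_map (GR.incl (Λ := Λ) d) (fun {ι} _ _ {A} h => TrG_map d.ker.subtype h)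
        (ih ι A0 (isUnit_of_inv h5 h6))

end step

theorem eucl_triv {Λ : Type} [Ring Λ] [IsDomain Λ] (hE : Eucl Λ) (G : Type) [Group G]
    [Subsingleton G] (ι : Type) [Fintype ι] [DecidableEq ι]
    (A : Matrix ι ι (MonoidAlgebra Λ G)) (hA : IsUnit A) : (KT (TrG Λ G)).mem A := by
  classical
  have hψ : ∀ x : MonoidAlgebra Λ G, MonoidAlgebra.single (1 : G) (x.coeff 1) = x := by
    intro x
    ext g
    have hg : g = 1 := Subsingleton.elim _ _
    subst hg
    rw [MonoidAlgebra.coeff_single, Finsupp.single_eq_same]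
  have hinj : ∀ {a b : Λ}, MonoidAlgebra.single (1 : G) a = MonoidAlgebra.single (1 : G) b →
      a = b := fun h => MonoidAlgebra.single_right_injective h
  have hmul : ∀ x y : MonoidAlgebra Λ G, (x * y).coeff 1 = x.coeff 1 * y.coeff 1 := by
    intro x y
    apply hinj
    rw [hψ, ← mul_one (1 : G), ← MonoidAlgebra.single_mul_single, mul_one, hψ, hψ]
  have h0 : ∀ x : MonoidAlgebra Λ G, x ≠ 0 → x.coeff 1 ≠ 0 := by
    intro x hx h
    apply hx
    rw [← hψ x, h, MonoidAlgebra.single_zero]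
  have hdom : IsDomain (MonoidAlgebra Λ G) := by
    have : Nontrivial (MonoidAlgebra Λ G) := inferInstance
    have : NoZeroDivisors (MonoidAlgebra Λ G) := by
      refine ⟨fun {x y} hxy => ?_⟩
      by_contra hcon
      push Not at hcon
      have h1 := hmul x y
      rw [hxy] at h1
      exact mul_ne_zero (h0 x hcon.1) (h0 y hcon.2) h1.symm
    exact NoZeroDivisors.to_isDomain _
  have hE' : Eucl (MonoidAlgebra Λ G) := by
    obtain ⟨ν, hν⟩ := hE
    refine ⟨fun x => ν (x.coeff 1), fun a b ha => ?_⟩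
    obtain ⟨q, hq⟩ := hν (a.coeff 1) (b.coeff 1) (h0 a ha)
    have h1 : (b - a * MonoidAlgebra.single (1 : G) q).coeff 1 = b.coeff 1 - a.coeff 1 * q := by
      rw [MonoidAlgebra.coeff_sub, Finsupp.sub_apply, hmul, MonoidAlgebra.coeff_single,
        Finsupp.single_eq_same]
    refine ⟨MonoidAlgebra.single (1 : G) q, ?_⟩
    rcases hq with h2 | h2
    · left
      by_contra hcon
      exact h0 _ hcon (by rw [h1, h2])
    · right
      change ν ((b - a * MonoidAlgebra.single (1 : G) q).coeff 1) < ν (a.coeff 1)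
      rw [h1]
      exact h2
  refine eucl_mem (KT (TrG Λ G)) hE' ?_ ι A hA
  intro κ _ _ u
  refine KT_of_triv ⟨fun _ => 1, fun x => ⟨(u x : MonoidAlgebra Λ G).coeff 1,
    ((u x)⁻¹ : (MonoidAlgebra Λ G)ˣ).val.coeff 1, ?_, ?_⟩, ?_⟩
  · rw [← hmul, Units.mul_inv, MonoidAlgebra.one_def, MonoidAlgebra.coeff_single,
      Finsupp.single_eq_same]
  · rw [← hmul, Units.inv_mul, MonoidAlgebra.one_def, MonoidAlgebra.coeff_single,
      Finsupp.single_eq_same]
  · congr 1
    funext x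
    exact (hψ _).symm

/-- poly-infinite-cyclic groups -/
theorem kt_PZ (Λ : Type) [Ring Λ] [IsDomain Λ] (hE : Eucl Λ)
    (hΛ : ∀ (G : Type) [Group G] [Subsingleton G], GR.Reg (MonoidAlgebra Λ G)) :
    ∀ (n : ℕ) (G : Type) [Group G], PZ n G → GR.Reg (MonoidAlgebra Λ G) ∧
      ∀ (ι : Type) [Fintype ι] [DecidableEq ι] (A : Matrix ι ι (MonoidAlgebra Λ G)),
        IsUnit A → (KT (TrG Λ G)).mem A := by
  intro n
  induction n with
  | zero =>
    intro G _ hG
    have : Subsingleton G := hG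
    exact ⟨hΛ G, fun ι _ _ A hA => eucl_triv hE G ι A hA⟩
  | succ n ih =>
    intro G _ hG
    obtain ⟨d, hd, hG⟩ := hG
    obtain ⟨t, ht⟩ := hd (Multiplicative.ofAdd 1)
    have ht' : GR.dg d t = 1 := by rw [GR.dg, ht]; rfl
    obtain ⟨h1, h2⟩ := ih _ hG
    exact ⟨Reg_step ht' h1, fun ι _ _ A hA => kt_step ht' h1 h2 ι A hA⟩

end Pool.Agent.K6.H28.K1
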