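import Pool.Agent.K6.H28.K1.Step

set_option autoImplicit false
set_option linter.unusedSectionVars false

/-! # Invertible matrices over group rings of torsion-free nilpotent groups -/

namespace Pool.Agent.K6.H28.K1

open Matrix Pool.Agent.K6.H28.SF Pool.Agent.K6.H28.GR

theorem reg_div (D : Type) [DivisionRing D] (G : Type) [Group G] [Subsingleton G] :
    GR.Reg (MonoidAlgebra D G) := by
  classical
  have hψ : ∀ x : MonoidAlgebra D G, MonoidAlgebra.single (1 : G) (x.coeff 1) = x := by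
    intro x
    ext g
    have hg : g = 1 := Subsingleton.elim _ _
    subst hg
    rw [MonoidAlgebra.coeff_single, Finsupp.single_eq_same]
  have hu : ∀ x : MonoidAlgebra D G, IsUnit x ∨ x = 0 := by
    intro x
    by_cases h : x.coeff 1 = 0
    · right
      rw [← hψ x, h, MonoidAlgebra.single_zero]
    · left
      obtain ⟨z, hz⟩ : ∃ z, z = x.coeff 1 := ⟨_, rfl⟩
      have hx := hψ x
      rw [← hz] at hx h
      rw [← hx]
      refine ⟨⟨MonoidAlgebra.single 1 z, MonoidAlgebra.single 1 z⁻¹, ?_, ?_⟩, rfl⟩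
      · rw [MonoidAlgebra.single_mul_single, mul_inv_cancel₀ h, mul_one]; rfl
      · rw [MonoidAlgebra.single_mul_single, inv_mul_cancel₀ h, mul_one]; rfl
  have : Nontrivial (MonoidAlgebra D G) := inferInstance
  let _ : DivisionRing (MonoidAlgebra D G) := DivisionRing.ofIsUnitOrEqZero hu
  refine ⟨inferInstance, fun M _ _ hM => ⟨0, ?_⟩⟩
  exact ⟨_, inferInstance, ⟨(Module.finBasis (MonoidAlgebra D G) M).equivFun⟩⟩

theorem reg_int (G : Type) [Group G] [Subsingleton G] : GR.Reg (MonoidAlgebra ℤ G) :=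
  Reg_trivial G

section general

variable {Λ : Type} [Ring Λ] [IsDomain Λ]

/-- a matrix over a group ring comes from a finitely generated subgroup -/
theorem exists_fg' {G : Type} [Group G] {ι κ : Type} [Fintype ι] [Fintype κ]
    (A : Matrix ι κ (MonoidAlgebra Λ G)) :
    ∃ (H : Subgroup G) (_ : Group.FG H) (B : Matrix ι κ (MonoidAlgebra Λ H)),
      B.map (GR.gr Λ H.subtype) = A := by
  classical
  let S : Finset G := Finset.univ.biUnion fun p : ι =>
    Finset.univ.biUnion fun q : κ => (A p q).coeff.support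
  let H : Subgroup G := Subgroup.closure (S : Set G)
  have hS : ∀ p q, ∀ g ∈ (A p q).coeff.support, g ∈ H := by
    intro p q g hg
    apply Subgroup.subset_closure
    rw [Finset.mem_coe]
    simp only [S, Finset.mem_biUnion]
    exact ⟨p, Finset.mem_univ _, q, Finset.mem_univ _, hg⟩
  refine ⟨H, (Group.fg_iff_subgroup_fg _).2 ⟨S, rfl⟩,
    fun p q => ∑ g ∈ (A p q).coeff.support.attach,
      MonoidAlgebra.single ⟨g.1, hS p q g.1 g.2⟩ ((A p q).coeff g.1), ?_⟩
  ext1 p q
  change GR.gr Λ H.subtype (∑ g ∈ (A p q).coeff.support.attach,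
      MonoidAlgebra.single ⟨g.1, hS p q g.1 g.2⟩ ((A p q).coeff g.1)) = A p q
  rw [map_sum]
  conv_rhs => rw [GR.eq_sum (A p q), ← Finset.sum_attach]
  refine Finset.sum_congr rfl fun g _ => ?_
  exact MonoidAlgebra.mapDomain_single

/-- torsion-free nilpotent groups -/
theorem kt_nilpotent (hE : Eucl Λ) (hΛ : ∀ (G : Type) [Group G] [Subsingleton G], GR.Reg (MonoidAlgebra Λ G))
    (G : Type) [Group G] [Group.IsNilpotent G] (htf : ∀ g : G, IsOfFinOrder g → g = 1)
    (ι : Type) [Fintype ι] [DecidableEq ι] (A : Matrix ι ι (MonoidAlgebra Λ G)) (hA : IsUnit A) :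
    (KT (TrG Λ G)).mem A := by
  obtain ⟨A', h1, h2⟩ := exists_inv hA
  obtain ⟨H, hH, B, hB⟩ := exists_fg' (fromRows A A')
  obtain ⟨k, hk⟩ := PZ_nilpotent H hH (by
    intro g hg
    apply Subtype.ext
    apply htf
    exact (Submonoid.isOfFinOrder_coe (H := H.toSubmonoid)).2 hg)
  have hinj : ∀ {κ μ : Type} {X Y : Matrix κ μ (MonoidAlgebra Λ H)},
      X.map (GR.gr Λ H.subtype) = Y.map (GR.gr Λ H.subtype) → X = Y := by
    intro κ μ X Y h
    ext1 p q
    exact MonoidAlgebra.mapDomain_injective Subtype.val_injective (congrFun (congrFun h p) q)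
  have hB1 : B.toRows₁.map (GR.gr Λ H.subtype) = A := by
    ext1 x y
    exact congrFun (congrFun hB (Sum.inl x)) y
  have hB2 : B.toRows₂.map (GR.gr Λ H.subtype) = A' := by
    ext1 x y
    exact congrFun (congrFun hB (Sum.inr x)) y
  have h3 : B.toRows₁ * B.toRows₂ = 1 := by
    apply hinj
    rw [Matrix.map_mul, hB1, hB2, h1, Matrix.map_one _ (map_zero _) (map_one _)]
  have h4 : B.toRows₂ * B.toRows₁ = 1 := by
    apply hinj
    rw [Matrix.map_mul, hB1, hB2, h2, Matrix.map_one _ (map_zero _) (map_one _)]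
  have h5 := (kt_PZ Λ hE hΛ k H hk).2 ι B.toRows₁ (isUnit_of_inv h3 h4)
  rw [← hB1]
  exact KT_map (GR.gr Λ H.subtype) (fun {ι} _ _ {A} h => TrG_map H.subtype h) h5

/-- elementary matrices and diagonal matrices with trivial units on the diagonal -/
def Simple {Λ G ι : Type} [Ring Λ] [Group G] [Fintype ι] [DecidableEq ι]
    (A : Matrix ι ι (MonoidAlgebra Λ G)) : Prop := IsElem A ∨ IsUD A

theorem exists_list {G : Type} [Group G] {ι : Type} [Fintype ι] [DecidableEq ι]
    {A : Matrix ι ι (MonoidAlgebra Λ G)} (h : (KT (TrG Λ G)).mem A) :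
    ∃ (m : ℕ) (l : List (Matrix (ι ⊕ Fin m) (ι ⊕ Fin m) (MonoidAlgebra Λ G))),
      (∀ X ∈ l, Simple X) ∧ l.prod = fromBlocks A 0 0 1 := by
  obtain ⟨ρ, _, _, h⟩ := h
  have h1 := cl_reindex ((Equiv.refl ι).sumCongr (Fintype.equivFin ρ).symm) h
  obtain ⟨l, h2, h3⟩ := Submonoid.exists_list_of_mem_closure h1
  refine ⟨Fintype.card ρ, l, h2, ?_⟩
  rw [h3]
  ext1 x y
  rcases x with x | x <;> rcases y with y | y <;> simp [Matrix.one_apply]

theorem mem_of_list {G : Type} [Group G] {ι : Type} [Fintype ι] [DecidableEq ι]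
    {A : Matrix ι ι (MonoidAlgebra Λ G)} {m : ℕ}
    {l : List (Matrix (ι ⊕ Fin m) (ι ⊕ Fin m) (MonoidAlgebra Λ G))}
    (h : ∀ X ∈ l, Simple X) (h' : l.prod = fromBlocks A 0 0 1) : (KT (TrG Λ G)).mem A := by
  refine ⟨Fin m, inferInstance, inferInstance, ?_⟩
  rw [← h']
  exact Submonoid.list_prod_mem _ fun X hX => Submonoid.subset_closure (h X hX)

end general

end Pool.Agent.K6.H28.K1
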