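import Pool.Agent.K6.H28.K1.Tfn
import Pool.Agent.K6.H28.GR.Final
import Pool.Agent.K6.H28.SF.Ultra

set_option autoImplicit false
set_option linter.unusedSectionVars false

/-! # Uniform bounds in degree one from ultraproducts -/

namespace Pool.Agent.K6.H28.K1

open Matrix Filter
open Pool.Agent.K6.H28.SF (aeOne mem_aeOne mk_eq_iff)
open Pool.Agent.K6.H28.GR (UD UG toU ev lf toU_lf msupp toU_mat_iff lift_mat sgm mk_sgm bm_single
  aeZero mk_zero_iff card_le_msupp msupp_ev)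

/-- stably a product of at most `N` simple matrices with supports of size at most `N` -/
def SimpleWithin {D G : Type} [DivisionRing D] [Group G] (N : ℕ) {n : ℕ}
    (A : Matrix (Fin n) (Fin n) (MonoidAlgebra D G)) : Prop :=
  ∃ m ≤ N, ∃ l : List (Matrix (Fin n ⊕ Fin m) (Fin n ⊕ Fin m) (MonoidAlgebra D G)),
    l.length ≤ N ∧ (∀ X ∈ l, Simple X ∧ msupp X ≤ N) ∧ l.prod = fromBlocks A 0 0 1

/-- stably a product of simple matrices -/
def StSimple {Λ G : Type} [Ring Λ] [Group G] {n : ℕ}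
    (A : Matrix (Fin n) (Fin n) (MonoidAlgebra Λ G)) : Prop :=
  ∃ (m : ℕ) (l : List (Matrix (Fin n ⊕ Fin m) (Fin n ⊕ Fin m) (MonoidAlgebra Λ G))),
    (∀ X ∈ l, Simple X) ∧ l.prod = fromBlocks A 0 0 1

theorem SimpleWithin.st {D G : Type} [DivisionRing D] [Group G] {N n : ℕ}
    {A : Matrix (Fin n) (Fin n) (MonoidAlgebra D G)} (h : SimpleWithin N A) : StSimple A := by
  obtain ⟨m, -, l, -, h1, h2⟩ := h
  exact ⟨m, l, fun X hX => (h1 X hX).1, h2⟩

section div

variable (𝒰 : Ultrafilter ℕ) (D : ℕ → Type) [∀ i, DivisionRing (D i)] (G : ℕ → Type)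
  [∀ i, Group (G i)]

theorem lift_unit (x : (UD 𝒰 D)ˣ) : ∃ y : (∀ i, D i)ˣ,
    Ideal.Quotient.mk (aeZero 𝒰 D) (y : ∀ i, D i) = x := by
  classical
  obtain ⟨b, hb⟩ := Ideal.Quotient.mk_surjective (I := aeZero 𝒰 D) (x : UD 𝒰 D)
  refine ⟨⟨fun i => if b i = 0 then 1 else b i, fun i => if b i = 0 then 1 else (b i)⁻¹, ?_, ?_⟩,
    ?_⟩
  · funext i
    by_cases h : b i = 0
    · simp [h]
    · simp [h]
  · funext i
    by_cases h : b i = 0
    · simp [h]
    · simp [h]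
  · rw [← hb, ← sub_eq_zero, ← map_sub, mk_zero_iff]
    have h1 : ∀ᶠ i in (𝒰 : Filter ℕ), b i ≠ 0 := by
      refine (Ultrafilter.eventually_not (f := 𝒰) (p := fun i => b i = 0)).2 fun h => ?_
      have h2 : (x : UD 𝒰 D) = 0 := by rw [← hb, mk_zero_iff]; exact h
      exact x.ne_zero h2
    filter_upwards [h1] with i hi
    simp [hi]

theorem simple_lift {ι : Type} [Fintype ι] [DecidableEq ι]
    {X : Matrix ι ι (MonoidAlgebra (UD 𝒰 D) (UG 𝒰 G))} (h : Simple X) :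
    ∃ Y : Matrix ι ι (MonoidAlgebra (∀ i, D i) (∀ i, G i)), Y.map (toU 𝒰 D G) = X ∧
      ∀ᶠ i in (𝒰 : Filter ℕ), Simple (Y.map (ev D G i)) := by
  rcases h with ⟨p, q, hpq, c, rfl⟩ | ⟨g, u, rfl⟩
  · have hel : IsElem (1 + Matrix.single p q (lf 𝒰 D G c) :
        Matrix ι ι (MonoidAlgebra (∀ i, D i) (∀ i, G i))) := ⟨p, q, hpq, _, rfl⟩
    refine ⟨1 + Matrix.single p q (lf 𝒰 D G c), ?_, Eventually.of_forall fun i =>
      Or.inl (hel.map (ev D G i))⟩
    rw [Matrix.map_add _ (map_add (toU 𝒰 D G)), Matrix.map_one _ (map_zero _) (map_one _)]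
    congr 1
    ext1 x y
    simp only [Matrix.map_apply, Matrix.single_apply]
    split_ifs
    · exact toU_lf 𝒰 D G c
    · exact map_zero _
  · choose w hw using fun x => lift_unit 𝒰 D (u x)
    refine ⟨Matrix.diagonal fun x => MonoidAlgebra.single (sgm 𝒰 G (g x)) (w x : ∀ i, D i), ?_,
      Eventually.of_forall fun i => Or.inr ⟨fun x => sgm 𝒰 G (g x) i,
        fun x => Units.map (Pi.evalRingHom D i : (∀ i, D i) →* D i) (w x), ?_⟩⟩
    · rw [Matrix.diagonal_map (map_zero _)]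
      congr 1
      funext x
      change toU 𝒰 D G (MonoidAlgebra.single (sgm 𝒰 G (g x)) (w x : ∀ i, D i)) = _
      rw [GR.toU, bm_single, mk_sgm, hw]
    · rw [Matrix.diagonal_map (map_zero _)]
      congr 1
      funext x
      change ev D G i (MonoidAlgebra.single (sgm 𝒰 G (g x)) (w x : ∀ i, D i)) = _
      rw [GR.ev, bm_single]
      rfl

theorem list_lift {ι : Type} [Fintype ι] [DecidableEq ι] :
    ∀ l : List (Matrix ι ι (MonoidAlgebra (UD 𝒰 D) (UG 𝒰 G))), (∀ X ∈ l, Simple X) →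
    ∃ l' : List (Matrix ι ι (MonoidAlgebra (∀ i, D i) (∀ i, G i))),
      l'.prod.map (toU 𝒰 D G) = l.prod ∧
      ∀ᶠ i in (𝒰 : Filter ℕ), ∀ Y ∈ l', Simple (Y.map (ev D G i)) := by
  intro l
  induction l with
  | nil =>
    intro _
    refine ⟨[], ?_, Eventually.of_forall fun i Y hY => absurd hY List.not_mem_nil⟩
    rw [List.prod_nil, List.prod_nil, Matrix.map_one _ (map_zero _) (map_one _)]
  | cons X l ih =>
    intro h
    obtain ⟨l', h1, h2⟩ := ih fun Y hY => h Y (List.mem_cons_of_mem _ hY)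
    obtain ⟨Y, h3, h4⟩ := simple_lift 𝒰 D G (h X List.mem_cons_self)
    refine ⟨Y :: l', ?_, ?_⟩
    · rw [List.prod_cons, List.prod_cons, Matrix.map_mul, h1, h3]
    · filter_upwards [h2, h4] with i h5 h6 Z hZ
      rcases List.mem_cons.1 hZ with rfl | hZ
      · exact h6
      · exact h5 Z hZ

theorem ev_prod {ι : Type} [Fintype ι] [DecidableEq ι] (i : ℕ)
    (l : List (Matrix ι ι (MonoidAlgebra (∀ i, D i) (∀ i, G i)))) :
    l.prod.map (ev D G i) = (l.map fun Y => Y.map (ev D G i)).prod := by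
  induction l with
  | nil => rw [List.prod_nil, List.map_nil, List.prod_nil, Matrix.map_one _ (map_zero _) (map_one _)]
  | cons X l ih => rw [List.prod_cons, List.map_cons, List.prod_cons, Matrix.map_mul, ih]

/-- **The compactness theorem in degree one.** -/
theorem uniformK (C : ℕ → ∀ (D G : Type) [DivisionRing D] [Group G], Prop)
    (Cω : ∀ (D G : Type) [DivisionRing D] [Group G], Prop)
    (h𝒰 : (𝒰 : Filter ℕ) ≤ Filter.cofinite)
    (hC : ∀ (D G : ℕ → Type) [∀ i, DivisionRing (D i)] [∀ i, Group (G i)],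
      (∀ i, C i (D i) (G i)) → Cω (UD 𝒰 D) (UG 𝒰 G))
    (n s : ℕ)
    (h : ∀ (D G : Type) [DivisionRing D] [Group G], Cω D G →
      ∀ A B : Matrix (Fin n) (Fin n) (MonoidAlgebra D G), A * B = 1 → B * A = 1 → StSimple A) :
    ∃ N : ℕ, ∀ (D G : Type) [DivisionRing D] [Group G], C N D G →
      ∀ A B : Matrix (Fin n) (Fin n) (MonoidAlgebra D G), A * B = 1 → B * A = 1 →
      msupp A ≤ s → msupp B ≤ s → SimpleWithin N A := by
  by_contra hcon
  push Not at hcon
  choose D G instD instG hC' A B hAB hBA hA hB hbad using hcon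
  obtain ⟨A', hA'⟩ := lift_mat D G s A fun i p q => (card_le_msupp (A i) p q).trans (hA i)
  obtain ⟨B', hB'⟩ := lift_mat D G s B fun i p q => (card_le_msupp (B i) p q).trans (hB i)
  have h1 : A'.map (toU 𝒰 D G) * B'.map (toU 𝒰 D G) = 1 := by
    have h2 : (A' * B').map (toU 𝒰 D G) = (1 : Matrix (Fin n) (Fin n) _).map (toU 𝒰 D G) := by
      rw [toU_mat_iff]
      refine Eventually.of_forall fun i => ?_
      rw [Matrix.map_mul, hA', hB', hAB, Matrix.map_one _ (map_zero _) (map_one _)]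
    rwa [Matrix.map_mul, Matrix.map_one _ (map_zero _) (map_one _)] at h2
  have h1' : B'.map (toU 𝒰 D G) * A'.map (toU 𝒰 D G) = 1 := by
    have h2 : (B' * A').map (toU 𝒰 D G) = (1 : Matrix (Fin n) (Fin n) _).map (toU 𝒰 D G) := by
      rw [toU_mat_iff]
      refine Eventually.of_forall fun i => ?_
      rw [Matrix.map_mul, hA', hB', hBA, Matrix.map_one _ (map_zero _) (map_one _)]
    rwa [Matrix.map_mul, Matrix.map_one _ (map_zero _) (map_one _)] at h2
  obtain ⟨m, l, h3, h4⟩ := h _ _ (hC D G hC') _ _ h1 h1'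
  obtain ⟨l', h5, h6⟩ := list_lift 𝒰 D G l h3
  have h7 : ∀ᶠ i in (𝒰 : Filter ℕ), l'.prod.map (ev D G i)
      = (fromBlocks A' 0 0 1 : Matrix (Fin n ⊕ Fin m) (Fin n ⊕ Fin m) _).map (ev D G i) := by
    rw [← toU_mat_iff, h5, h4, Matrix.fromBlocks_map, Matrix.map_one _ (map_zero _) (map_one _),
      Matrix.map_zero _ (map_zero (toU 𝒰 D G)), Matrix.map_zero _ (map_zero (toU 𝒰 D G))]
  have h8 : ∀ᶠ i in (𝒰 : Filter ℕ), m + l'.length +
      (l'.map fun Y => ∑ p, ∑ q, (Y p q).coeff.support.card).sum ≤ i := by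
    apply h𝒰
    rw [Nat.cofinite_eq_atTop]
    exact Filter.mem_atTop _
  obtain ⟨i, hi1, hi2, hi3⟩ := (h6.and (h7.and h8)).exists
  rw [ev_prod, Matrix.fromBlocks_map, hA', Matrix.map_zero _ (map_zero (ev D G i)),
    Matrix.map_zero _ (map_zero (ev D G i)), Matrix.map_one _ (map_zero _) (map_one _)] at hi2
  refine hbad i ⟨m, by omega, _, ?_, ?_, hi2⟩
  · rw [List.length_map]
    omega
  · intro X hX
    obtain ⟨Y, hY, rfl⟩ := List.mem_map.1 hX
    refine ⟨hi1 Y hY, ?_⟩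
    have h9 : (∑ p, ∑ q, (Y p q).coeff.support.card) ≤
        (l'.map fun Y => ∑ p, ∑ q, (Y p q).coeff.support.card).sum :=
      List.single_le_sum (fun _ _ => Nat.zero_le _) _ (List.mem_map.2 ⟨Y, hY, rfl⟩)
    exact (msupp_ev D G _ i).trans (by omega)

end div

/-- the equivalence -/
theorem equivalenceK (C : ℕ → ∀ (D G : Type) [DivisionRing D] [Group G], Prop)
    (hC : ∀ (D G : ℕ → Type) [∀ i, DivisionRing (D i)] [∀ i, Group (G i)],
      (∀ i, C i (D i) (G i)) → ∀ N, C N (UD (Filter.hyperfilter ℕ) D) (UG (Filter.hyperfilter ℕ) G)) :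
    (∀ (D G : Type) [DivisionRing D] [Group G], (∀ N, C N D G) →
      ∀ (n : ℕ) (A B : Matrix (Fin n) (Fin n) (MonoidAlgebra D G)), A * B = 1 → B * A = 1 →
        StSimple A) ↔
    ∀ n s : ℕ, ∃ N : ℕ, ∀ (D G : Type) [DivisionRing D] [Group G], C N D G →
      ∀ A B : Matrix (Fin n) (Fin n) (MonoidAlgebra D G), A * B = 1 → B * A = 1 →
      msupp A ≤ s → msupp B ≤ s → SimpleWithin N A := by
  constructor
  · intro h n s
    exact uniformK (Filter.hyperfilter ℕ) C (fun D G _ _ => ∀ N, C N D G)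
      Filter.hyperfilter_le_cofinite hC n s fun D G _ _ hDG A B hAB hBA => h D G hDG n A B hAB hBA
  · intro h D G _ _ hDG n A B hAB hBA
    obtain ⟨N, hN⟩ := h n (msupp A + msupp B)
    exact (hN D G (hDG N) A B hAB hBA (by omega) (by omega)).st

theorem st_nilpotent {Λ : Type} [Ring Λ] [IsDomain Λ] (hE : Eucl Λ)
    (hΛ : ∀ (G : Type) [Group G] [Subsingleton G], GR.Reg (MonoidAlgebra Λ G))
    (G : Type) [Group G] [Group.IsNilpotent G] (htf : ∀ g : G, IsOfFinOrder g → g = 1)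
    {n : ℕ} (A B : Matrix (Fin n) (Fin n) (MonoidAlgebra Λ G)) (hAB : A * B = 1)
    (hBA : B * A = 1) : StSimple A :=
  exists_list (kt_nilpotent hE hΛ G htf (Fin n) A (isUnit_of_inv hAB hBA))

/-- nilpotent groups without small torsion -/
theorem nilpotentK (c n s : ℕ) : ∃ N : ℕ, ∀ (D G : Type) [DivisionRing D] [Group G],
    (⊤ : Subgroup G).lowerCentralSeries c = ⊥ →
    (∀ g : G, ∀ k : ℕ, 0 < k → k ≤ N → g ^ k = 1 → g = 1) →
    ∀ A B : Matrix (Fin n) (Fin n) (MonoidAlgebra D G), A * B = 1 → B * A = 1 →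
    msupp A ≤ s → msupp B ≤ s → SimpleWithin N A := by
  have h := uniformK (Filter.hyperfilter ℕ)
    (fun N _ G _ _ => (⊤ : Subgroup G).lowerCentralSeries c = ⊥ ∧
      ∀ g : G, ∀ k : ℕ, 0 < k → k ≤ N → g ^ k = 1 → g = 1)
    (fun _ G _ _ => (⊤ : Subgroup G).lowerCentralSeries c = ⊥ ∧ ∀ g : G, IsOfFinOrder g → g = 1)
    Filter.hyperfilter_le_cofinite ?_ n s ?_
  · obtain ⟨N, hN⟩ := h
    exact ⟨N, fun D G _ _ h1 h2 => hN D G ⟨h1, h2⟩⟩
  · intro D G _ _ hG
    exact ⟨GR.nilpotent_closed c _ G fun i => (hG i).1,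
      SF.tf_ultra _ G Filter.hyperfilter_le_cofinite fun i => (hG i).2⟩
  · intro D G _ _ hG A B hAB hBA
    have : Group.IsNilpotent G := Subgroup.nilpotent_iff_lowerCentralSeries.2 ⟨c, hG.1⟩
    exact st_nilpotent (eucl_div D) (fun G _ _ => reg_div D G) G hG.2 A B hAB hBA

section int

open Pool.Agent.K6.H28.SF (mnrm mat_surj nrm_le_mnrm mnrm_map mapDomain_surj tf_ultra)

variable (𝒰 : Ultrafilter ℕ) (G : ℕ → Type) [∀ i, Group (G i)]

theorem simple_lift_int {ι : Type} [Fintype ι] [DecidableEq ι]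
    {X : Matrix ι ι (MonoidAlgebra ℤ ((∀ i, G i) ⧸ aeOne 𝒰 G))} (h : Simple X) :
    ∃ Y : Matrix ι ι (MonoidAlgebra ℤ (∀ i, G i)), Y.map (SF.toU 𝒰 G) = X ∧
      ∀ i, Simple (Y.map (SF.ev G i)) := by
  rcases h with ⟨p, q, hpq, c, rfl⟩ | ⟨g, u, rfl⟩
  · obtain ⟨c', hc'⟩ := mapDomain_surj (QuotientGroup.mk'_surjective (aeOne 𝒰 G)) c
    have hc : SF.toU 𝒰 G c' = c := hc'
    have hel : IsElem (1 + Matrix.single p q c' :
        Matrix ι ι (MonoidAlgebra ℤ (∀ i, G i))) := ⟨p, q, hpq, _, rfl⟩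
    refine ⟨1 + Matrix.single p q c', ?_, fun i => Or.inl (hel.map (SF.ev G i))⟩
    rw [Matrix.map_add _ (map_add (SF.toU 𝒰 G)), Matrix.map_one _ (map_zero _) (map_one _)]
    congr 1
    ext1 x y
    simp only [Matrix.map_apply, Matrix.single_apply]
    split_ifs
    · exact hc
    · exact map_zero _
  · choose g' hg' using fun x => QuotientGroup.mk'_surjective (aeOne 𝒰 G) (g x)
    refine ⟨Matrix.diagonal fun x => MonoidAlgebra.single (g' x) (u x : ℤ), ?_,
      fun i => Or.inr ⟨fun x => g' x i, u, ?_⟩⟩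
    · rw [Matrix.diagonal_map (map_zero _)]
      congr 1
      funext x
      refine MonoidAlgebra.mapDomain_single.trans ?_
      rw [hg']
    · rw [Matrix.diagonal_map (map_zero _)]
      congr 1
      funext x
      exact MonoidAlgebra.mapDomain_single

theorem list_lift_int {ι : Type} [Fintype ι] [DecidableEq ι] :
    ∀ l : List (Matrix ι ι (MonoidAlgebra ℤ ((∀ i, G i) ⧸ aeOne 𝒰 G))), (∀ X ∈ l, Simple X) →
    ∃ l' : List (Matrix ι ι (MonoidAlgebra ℤ (∀ i, G i))),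
      l'.prod.map (SF.toU 𝒰 G) = l.prod ∧ ∀ i, ∀ Y ∈ l', Simple (Y.map (SF.ev G i)) := by
  intro l
  induction l with
  | nil =>
    intro _
    refine ⟨[], ?_, fun i Y hY => absurd hY List.not_mem_nil⟩
    rw [List.prod_nil, List.prod_nil, Matrix.map_one _ (map_zero _) (map_one _)]
  | cons X l ih =>
    intro h
    obtain ⟨l', h1, h2⟩ := ih fun Y hY => h Y (List.mem_cons_of_mem _ hY)
    obtain ⟨Y, h3, h4⟩ := simple_lift_int 𝒰 G (h X List.mem_cons_self)
    refine ⟨Y :: l', ?_, ?_⟩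
    · rw [List.prod_cons, List.prod_cons, Matrix.map_mul, h1, h3]
    · intro i Z hZ
      rcases List.mem_cons.1 hZ with rfl | hZ
      · exact h4 i
      · exact h2 i Z hZ

theorem ev_prod_int {ι : Type} [Fintype ι] [DecidableEq ι] (i : ℕ)
    (l : List (Matrix ι ι (MonoidAlgebra ℤ (∀ i, G i)))) :
    l.prod.map (SF.ev G i) = (l.map fun Y => Y.map (SF.ev G i)).prod := by
  induction l with
  | nil => rw [List.prod_nil, List.map_nil, List.prod_nil, Matrix.map_one _ (map_zero _) (map_one _)]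
  | cons X l ih => rw [List.prod_cons, List.map_cons, List.prod_cons, Matrix.map_mul, ih]

/-- stably a product of at most `N` simple matrices of norm at most `N`, integral group rings -/
def SimpleWithinZ {G : Type} [Group G] (N : ℕ) {n : ℕ}
    (A : Matrix (Fin n) (Fin n) (MonoidAlgebra ℤ G)) : Prop :=
  ∃ m ≤ N, ∃ l : List (Matrix (Fin n ⊕ Fin m) (Fin n ⊕ Fin m) (MonoidAlgebra ℤ G)),
    l.length ≤ N ∧ (∀ X ∈ l, Simple X ∧ mnrm X ≤ N) ∧ l.prod = fromBlocks A 0 0 1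

theorem SimpleWithinZ.st {G : Type} [Group G] {N n : ℕ}
    {A : Matrix (Fin n) (Fin n) (MonoidAlgebra ℤ G)} (h : SimpleWithinZ N A) : StSimple A := by
  obtain ⟨m, -, l, -, h1, h2⟩ := h
  exact ⟨m, l, fun X hX => (h1 X hX).1, h2⟩

/-- The compactness theorem in degree one, integral group rings. -/
theorem uniformZ (C : ℕ → ∀ (G : Type) [Group G], Prop) (Cω : ∀ (G : Type) [Group G], Prop)
    (h𝒰 : (𝒰 : Filter ℕ) ≤ Filter.cofinite)
    (hC : ∀ (G : ℕ → Type) [∀ i, Group (G i)], (∀ i, C i (G i)) → Cω ((∀ i, G i) ⧸ aeOne 𝒰 G))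
    (n s : ℕ)
    (h : ∀ (G : Type) [Group G], Cω G →
      ∀ A B : Matrix (Fin n) (Fin n) (MonoidAlgebra ℤ G), A * B = 1 → B * A = 1 → StSimple A) :
    ∃ N : ℕ, ∀ (G : Type) [Group G], C N G →
      ∀ A B : Matrix (Fin n) (Fin n) (MonoidAlgebra ℤ G), A * B = 1 → B * A = 1 →
      mnrm A ≤ s → mnrm B ≤ s → SimpleWithinZ N A := by
  by_contra hcon
  push Not at hcon
  choose G instG hC' A B hAB hBA hA hB hbad using hcon
  obtain ⟨A', hA'⟩ := SF.lift_mat 𝒰 G s A fun i p q => (nrm_le_mnrm (A i) p q).trans (hA i)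
  obtain ⟨B', hB'⟩ := SF.lift_mat 𝒰 G s B fun i p q => (nrm_le_mnrm (B i) p q).trans (hB i)
  have h1 : A'.map (SF.toU 𝒰 G) * B'.map (SF.toU 𝒰 G) = 1 := by
    have h2 : (A' * B').map (SF.toU 𝒰 G) = (1 : Matrix (Fin n) (Fin n) _).map (SF.toU 𝒰 G) := by
      rw [SF.toU_mat_iff]
      filter_upwards [hA', hB'] with i h3 h4
      rw [Matrix.map_mul, h3, h4, hAB, Matrix.map_one _ (map_zero _) (map_one _)]
    rwa [Matrix.map_mul, Matrix.map_one _ (map_zero _) (map_one _)] at h2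
  have h1' : B'.map (SF.toU 𝒰 G) * A'.map (SF.toU 𝒰 G) = 1 := by
    have h2 : (B' * A').map (SF.toU 𝒰 G) = (1 : Matrix (Fin n) (Fin n) _).map (SF.toU 𝒰 G) := by
      rw [SF.toU_mat_iff]
      filter_upwards [hA', hB'] with i h3 h4
      rw [Matrix.map_mul, h3, h4, hBA, Matrix.map_one _ (map_zero _) (map_one _)]
    rwa [Matrix.map_mul, Matrix.map_one _ (map_zero _) (map_one _)] at h2
  obtain ⟨m, l, h3, h4⟩ := h _ (hC G hC') _ _ h1 h1'
  obtain ⟨l', h5, h6⟩ := list_lift_int 𝒰 G l h3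
  have h7 : ∀ᶠ i in (𝒰 : Filter ℕ), l'.prod.map (SF.ev G i)
      = (fromBlocks A' 0 0 1 : Matrix (Fin n ⊕ Fin m) (Fin n ⊕ Fin m) _).map (SF.ev G i) := by
    rw [← SF.toU_mat_iff, h5, h4, Matrix.fromBlocks_map, Matrix.map_one _ (map_zero _) (map_one _),
      Matrix.map_zero _ (map_zero (SF.toU 𝒰 G)), Matrix.map_zero _ (map_zero (SF.toU 𝒰 G))]
  have h8 : ∀ᶠ i in (𝒰 : Filter ℕ), m + l'.length + (l'.map fun Y => mnrm Y).sum ≤ i := by
    apply h𝒰
    rw [Nat.cofinite_eq_atTop]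
    exact Filter.mem_atTop _
  obtain ⟨i, hi1, hi2, hi3⟩ := (h7.and (h8.and hA')).exists
  rw [ev_prod_int, Matrix.fromBlocks_map, hi3, Matrix.map_zero _ (map_zero (SF.ev G i)),
    Matrix.map_zero _ (map_zero (SF.ev G i)), Matrix.map_one _ (map_zero _) (map_one _)] at hi1
  refine hbad i ⟨m, by omega, _, ?_, ?_, hi1⟩
  · rw [List.length_map]
    omega
  · intro X hX
    obtain ⟨Y, hY, rfl⟩ := List.mem_map.1 hX
    refine ⟨h6 i Y hY, ?_⟩
    have h9 : mnrm Y ≤ (l'.map fun Y => mnrm Y).sum :=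
      List.single_le_sum (fun _ _ => Nat.zero_le _) _ (List.mem_map.2 ⟨Y, hY, rfl⟩)
    exact (mnrm_map (Pi.evalMonoidHom G i) Y).trans (by omega)

end int

/-- the equivalence, integral group rings -/
theorem equivalenceZ (C : ℕ → ∀ (G : Type) [Group G], Prop)
    (hC : ∀ (G : ℕ → Type) [∀ i, Group (G i)],
      (∀ i, C i (G i)) → ∀ N, C N ((∀ i, G i) ⧸ aeOne (Filter.hyperfilter ℕ) G)) :
    (∀ (G : Type) [Group G], (∀ N, C N G) →
      ∀ (n : ℕ) (A B : Matrix (Fin n) (Fin n) (MonoidAlgebra ℤ G)), A * B = 1 → B * A = 1 →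
        StSimple A) ↔
    ∀ n s : ℕ, ∃ N : ℕ, ∀ (G : Type) [Group G], C N G →
      ∀ A B : Matrix (Fin n) (Fin n) (MonoidAlgebra ℤ G), A * B = 1 → B * A = 1 →
      SF.mnrm A ≤ s → SF.mnrm B ≤ s → SimpleWithinZ N A := by
  constructor
  · intro h n s
    exact uniformZ (Filter.hyperfilter ℕ) C (fun G _ => ∀ N, C N G)
      Filter.hyperfilter_le_cofinite hC n s fun G _ hG A B hAB hBA => h G hG n A B hAB hBA
  · intro h G _ hG n A B hAB hBA
    obtain ⟨N, hN⟩ := h n (SF.mnrm A + SF.mnrm B)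
    exact (hN G (hG N) A B hAB hBA (by omega) (by omega)).st

/-- nilpotent groups without small torsion, integral group rings -/
theorem nilpotentZ (c n s : ℕ) : ∃ N : ℕ, ∀ (G : Type) [Group G],
    (⊤ : Subgroup G).lowerCentralSeries c = ⊥ →
    (∀ g : G, ∀ k : ℕ, 0 < k → k ≤ N → g ^ k = 1 → g = 1) →
    ∀ A B : Matrix (Fin n) (Fin n) (MonoidAlgebra ℤ G), A * B = 1 → B * A = 1 →
    SF.mnrm A ≤ s → SF.mnrm B ≤ s → SimpleWithinZ N A := by
  have h := uniformZ (Filter.hyperfilter ℕ)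
    (fun N G _ => (⊤ : Subgroup G).lowerCentralSeries c = ⊥ ∧
      ∀ g : G, ∀ k : ℕ, 0 < k → k ≤ N → g ^ k = 1 → g = 1)
    (fun G _ => (⊤ : Subgroup G).lowerCentralSeries c = ⊥ ∧ ∀ g : G, IsOfFinOrder g → g = 1)
    Filter.hyperfilter_le_cofinite ?_ n s ?_
  · obtain ⟨N, hN⟩ := h
    exact ⟨N, fun G _ h1 h2 => hN G ⟨h1, h2⟩⟩
  · intro G _ hG
    exact ⟨GR.nilpotent_closed c _ G fun i => (hG i).1,
      SF.tf_ultra _ G Filter.hyperfilter_le_cofinite fun i => (hG i).2⟩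
  · intro G _ hG A B hAB hBA
    have : Group.IsNilpotent G := Subgroup.nilpotent_iff_lowerCentralSeries.2 ⟨c, hG.1⟩
    exact st_nilpotent eucl_int (fun G _ _ => reg_int G) G hG.2 A B hAB hBA

end Pool.Agent.K6.H28.K1
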